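import Pool.Agent.Lib.MP_d38209_co.LB.Defs

/-!
# Analytic continuation along the segment from `0` to `x0`

Put `F x = x Φ(u x) - (2 x + 2 x ell x - (x + ell x) (2 - exp(-x)))`.  For `x ≠ 0` with
`2 - exp(-x) ≠ 0` the equation `F x = 0` is equivalent to
`Φ (u x) = 2 + 2 ell x - (x + ell x) / u x`.  `F` is analytic at every point of the segment
`{t x0 : t ∈ [0,1]}`: `2 - exp(-x)` lies in the slit plane there (`h1`, so `ell` is analytic and the
denominator of `u` is not `0`) and `u x ∈ ball 0 (1/R)` (`h2`; `Φ` is analytic there by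
`DifferentiableOn.analyticAt`).  The segment is preconnected, `F` is frequently `0` in `𝓝[≠] 0`
(`h4`, near `0` we have `2 - exp(-x) ≠ 0`), so
`AnalyticOnNhd.eqOn_zero_of_preconnected_of_frequently_eq_zero` gives `F = 0` on the segment.
As `x0` is an accumulation point of the segment (`x0 ≠ 0`), `F` is frequently `0` in `𝓝[≠] x0`, so
eventually `0` in `𝓝 x0` (`AnalyticAt.frequently_zero_iff_eventually_zero`), and near `x0`
we may divide by `x`.
-/

namespace Pool.Agent.Lib.MP_d38209_co.LB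

open Filter Topology

theorem contA (x0 : ℂ) (R : ℝ) (hR : 0 < R) (Φ : ℂ → ℂ)
    (hΦ : DifferentiableOn ℂ Φ (Metric.ball 0 (1 / R)))
    (h1 : ∀ t ∈ Set.Icc (0 : ℝ) 1, 2 - Complex.exp (-((t : ℂ) * x0)) ∈ Complex.slitPlane)
    (h2 : ∀ t ∈ Set.Icc (0 : ℝ) 1, ‖u ((t : ℂ) * x0)‖ < 1 / R) (hx0 : x0 ≠ 0)
    (h4 : ∃ᶠ x in 𝓝[≠] (0 : ℂ), Φ (u x) = 2 + 2 * ell x - (x + ell x) / u x) :
    ∀ᶠ x in 𝓝 x0, Φ (u x) = 2 + 2 * ell x - (x + ell x) / u x := by
  set F : ℂ → ℂ := fun x =>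
    x * Φ (u x) - (2 * x + 2 * x * ell x - (x + ell x) * (2 - Complex.exp (-x))) with hF
  have key : ∀ x : ℂ, x ≠ 0 → 2 - Complex.exp (-x) ≠ 0 →
      (F x = 0 ↔ Φ (u x) = 2 + 2 * ell x - (x + ell x) / u x) := by
    intro x hx hs
    have e : (x + ell x) / u x = (x + ell x) * (2 - Complex.exp (-x)) / x := by
      unfold u
      field_simp
    rw [e]
    constructor
    · intro h
      have h' : x * Φ (u x) = x * (2 + 2 * ell x - (x + ell x) * (2 - Complex.exp (-x)) / x) := by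
        have : x * (2 + 2 * ell x - (x + ell x) * (2 - Complex.exp (-x)) / x) =
            2 * x + 2 * x * ell x - (x + ell x) * (2 - Complex.exp (-x)) := by
          field_simp
        rw [this]
        exact sub_eq_zero.mp h
      exact mul_left_cancel₀ hx h'
    · intro h
      have : F x = x * Φ (u x) -
        (2 * x + 2 * x * ell x - (x + ell x) * (2 - Complex.exp (-x))) := rfl
      rw [this, h]
      field_simp
      ring
  have hAn : ∀ x : ℂ, 2 - Complex.exp (-x) ∈ Complex.slitPlane → ‖u x‖ < 1 / R →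
      AnalyticAt ℂ F x := by
    intro x hs hu
    have a1 : AnalyticAt ℂ (fun x : ℂ => x) x := analyticAt_id
    have a2 : AnalyticAt ℂ (fun x : ℂ => 2 - Complex.exp (-x)) x :=
      analyticAt_const.sub a1.neg.cexp
    have a3 : AnalyticAt ℂ ell x := a2.clog hs
    have a4 : AnalyticAt ℂ u x := a1.div a2 (Complex.slitPlane_ne_zero hs)
    have a5 : AnalyticAt ℂ Φ (u x) := hΦ.analyticAt (Metric.isOpen_ball.mem_nhds (by
      rw [mem_ball_zero_iff]; exact hu))
    have a6 : AnalyticAt ℂ (fun x => Φ (u x)) x := a5.comp a4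
    exact (a1.mul a6).sub (((analyticAt_const.mul a1).add ((analyticAt_const.mul a1).mul a3)).sub
      ((a1.add a3).mul a2))
  set U : Set ℂ := (fun t : ℝ => (t : ℂ) * x0) '' Set.Icc (0 : ℝ) 1 with hU
  have hUc : IsPreconnected U :=
    isPreconnected_Icc.image _ ((Complex.continuous_ofReal.mul continuous_const).continuousOn)
  have hUan : AnalyticOnNhd ℂ F U := by
    rintro x ⟨t, ht, rfl⟩
    exact hAn _ (h1 t ht) (h2 t ht)
  have h0U : (0 : ℂ) ∈ U := ⟨0, ⟨le_refl 0, zero_le_one⟩, by simp⟩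
  have h1U : x0 ∈ U := ⟨1, ⟨zero_le_one, le_refl 1⟩, by simp⟩
  have hcs : Continuous (fun x : ℂ => 2 - Complex.exp (-x)) := by fun_prop
  have hne0 : ∀ᶠ x in 𝓝 (0 : ℂ), 2 - Complex.exp (-x) ≠ 0 := by
    refine hcs.continuousAt.eventually_ne ?_
    norm_num
  have hfr : ∃ᶠ x in 𝓝[≠] (0 : ℂ), F x = 0 := by
    have hev : ∀ᶠ x in 𝓝[≠] (0 : ℂ), x ≠ 0 ∧ 2 - Complex.exp (-x) ≠ 0 :=
      (eventually_mem_nhdsWithin.mono fun x hx => hx).and (hne0.filter_mono nhdsWithin_le_nhds)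
    refine (h4.and_eventually hev).mono ?_
    rintro x ⟨hx, hx0', hs⟩
    exact (key x hx0' hs).mpr hx
  have hEq := hUan.eqOn_zero_of_preconnected_of_frequently_eq_zero hUc h0U hfr
  have hfr1 : ∃ᶠ x in 𝓝[≠] x0, F x = 0 := by
    have ht : Tendsto (fun t : ℝ => (t : ℂ) * x0) (𝓝[<] 1) (𝓝[≠] x0) := by
      refine tendsto_nhdsWithin_iff.mpr ⟨?_, ?_⟩
      · have : Tendsto (fun t : ℝ => (t : ℂ) * x0) (𝓝 1) (𝓝 (((1 : ℝ) : ℂ) * x0)) :=
          ((Complex.continuous_ofReal.mul continuous_const).tendsto 1)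
        rw [Complex.ofReal_one, one_mul] at this
        exact this.mono_left nhdsWithin_le_nhds
      · filter_upwards [self_mem_nhdsWithin] with t ht
        intro h
        have h' : ((t : ℂ) - 1) * x0 = 0 := by
          rw [sub_mul, one_mul, sub_eq_zero]
          exact h
        rcases mul_eq_zero.mp h' with h'' | h''
        · have : (t : ℂ) = ((1 : ℝ) : ℂ) := by
            rw [Complex.ofReal_one]; exact sub_eq_zero.mp h''
          exact (Set.mem_Iio.mp ht).ne (Complex.ofReal_injective this)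
        · exact hx0 h''
    refine ht.frequently ?_
    have hev : ∀ᶠ t : ℝ in 𝓝[<] (1 : ℝ), F ((t : ℂ) * x0) = 0 := by
      have h01 : ∀ᶠ t : ℝ in 𝓝[<] (1 : ℝ), t ∈ Set.Ico (0 : ℝ) 1 :=
        Ico_mem_nhdsLT (by norm_num)
      filter_upwards [h01] with t ht
      exact hEq ⟨t, ⟨ht.1, ht.2.le⟩, rfl⟩
    exact hev.frequently
  have hs1 := h1 1 ⟨zero_le_one, le_refl 1⟩
  have hu1 := h2 1 ⟨zero_le_one, le_refl 1⟩
  rw [Complex.ofReal_one, one_mul] at hs1 hu1
  have hev := (hAn x0 hs1 hu1).frequently_zero_iff_eventually_zero.mp hfr1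
  have hne1 : ∀ᶠ x in 𝓝 x0, 2 - Complex.exp (-x) ≠ 0 :=
    hcs.continuousAt.eventually_ne (Complex.slitPlane_ne_zero hs1)
  have hne2 : ∀ᶠ x in 𝓝 x0, x ≠ 0 := continuousAt_id.eventually_ne hx0
  filter_upwards [hev, hne1, hne2] with x hx h3 h4
  exact (key x h4 h3).mp hx

end Pool.Agent.Lib.MP_d38209_co.LB
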