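import Pool.Agent.Lib.MP_d38209_co.LB.Defs

/-!
# The contradiction at the critical point

Write `s = 2 - exp(-x)`, so `s' = exp(-x) = 2 - s`, `u = x / s`, `ell' = s' / s`,
`u' = 1/s - u ell' = (s - x s') / s^2`.  Differentiating the identity
`Φ (u x) = 2 + 2 ell x - (x + ell x) / u x` (valid near `x0`) gives
`Φ'(u) u' = 2 ell' - (1 + ell')/u + (x + ell) u' / u^2`, and because
`2 ell' u^2 - (1 + ell') u + 2 u u' = u (2 - s - s') / s = 0` this is
`H(x) u'(x) = 0` near `x0`, where `H(x) = Φ'(u x) + 2 / u x - (x + ell x) / (u x)^2`.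
The numerator `s - x s'` of `u'` has derivative `-x s'' = x exp(-x) ≠ 0` at `x0`, so `u' ≠ 0` on a
punctured neighbourhood of `x0` (`HasDerivAt.eventually_ne`), so `H = 0` there and by continuity
near `x0`.  But `u'(x0) = 0` (`s(x0) = 2 - exp(-x0) = x0 exp(-x0)` by `hcrit`), so the derivative of
`H` at `x0` is `-(1 + ell'(x0)) / u(x0)^2 = -2 / (s(x0) u(x0)^2) ≠ 0`, contradiction.
(`Φ'` = `deriv Φ` is differentiable on the ball: `DifferentiableOn.deriv`.)
-/

namespace Pool.Agent.Lib.MP_d38209_co.LB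

open Filter Topology

private theorem contB_deriv_s (x : ℂ) :
    HasDerivAt (fun x : ℂ => 2 - Complex.exp (-x)) (Complex.exp (-x)) x := by
  have h := ((hasDerivAt_id x).neg.cexp).const_sub 2
  simpa using h

private theorem contB_deriv_u (x : ℂ) (hs : 2 - Complex.exp (-x) ≠ 0) :
    HasDerivAt u (((2 - Complex.exp (-x)) - x * Complex.exp (-x)) / (2 - Complex.exp (-x)) ^ 2)
      x := by
  have h := (hasDerivAt_id' x).div (contB_deriv_s x) hs
  rw [one_mul] at h
  exact h

private theorem contB_deriv_ell (x : ℂ) (hs : 2 - Complex.exp (-x) ∈ Complex.slitPlane) :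
    HasDerivAt ell (Complex.exp (-x) / (2 - Complex.exp (-x))) x :=
  (contB_deriv_s x).clog hs

theorem contB (x0 : ℂ) (R : ℝ) (hR : 0 < R) (Φ : ℂ → ℂ)
    (hΦ : DifferentiableOn ℂ Φ (Metric.ball 0 (1 / R)))
    (hs : 2 - Complex.exp (-x0) ∈ Complex.slitPlane) (hu : ‖u x0‖ < 1 / R) (hx0 : x0 ≠ 0)
    (hcrit : 2 = (1 + x0) * Complex.exp (-x0))
    (h : ∀ᶠ x in 𝓝 x0, Φ (u x) = 2 + 2 * ell x - (x + ell x) / u x) : False := by
  have hs0 : 2 - Complex.exp (-x0) ≠ 0 := Complex.slitPlane_ne_zero hs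
  have hcs : Continuous (fun x : ℂ => 2 - Complex.exp (-x)) := by fun_prop
  have hopen : IsOpen (Metric.ball (0 : ℂ) (1 / R)) := Metric.isOpen_ball
  have hcu : ContinuousAt u x0 := (contB_deriv_u x0 hs0).continuousAt
  -- the good neighbourhood
  have g1 : ∀ᶠ x in 𝓝 x0, 2 - Complex.exp (-x) ∈ Complex.slitPlane :=
    hcs.continuousAt.eventually (Complex.isOpen_slitPlane.mem_nhds hs)
  have g2 : ∀ᶠ x in 𝓝 x0, x ≠ 0 := continuousAt_id.eventually_ne hx0
  have g3 : ∀ᶠ x in 𝓝 x0, u x ∈ Metric.ball (0 : ℂ) (1 / R) :=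
    hcu.eventually (hopen.mem_nhds (by rw [mem_ball_zero_iff]; exact hu))
  have hdΦ : ∀ w ∈ Metric.ball (0 : ℂ) (1 / R), HasDerivAt Φ (deriv Φ w) w := fun w hw =>
    (hΦ.differentiableAt (hopen.mem_nhds hw)).hasDerivAt
  have hddΦ : ∀ w ∈ Metric.ball (0 : ℂ) (1 / R), HasDerivAt (deriv Φ) (deriv (deriv Φ) w) w :=
    fun w hw => ((hΦ.deriv hopen).differentiableAt (hopen.mem_nhds hw)).hasDerivAt
  -- the function H
  set H : ℂ → ℂ := fun x => deriv Φ (u x) + 2 / u x - (x + ell x) / (u x) ^ 2 with hH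
  -- H * (numerator of u') = 0 near x0
  have e1 : ∀ᶠ x in 𝓝 x0, H x * ((2 - Complex.exp (-x)) - x * Complex.exp (-x)) = 0 := by
    filter_upwards [h.eventually_nhds, g1, g2, g3] with x hx hx1 hx2 hx3
    have hs' : 2 - Complex.exp (-x) ≠ 0 := Complex.slitPlane_ne_zero hx1
    have hux : u x ≠ 0 := div_ne_zero hx2 hs'
    have du := contB_deriv_u x hs'
    have dl := contB_deriv_ell x hx1
    have d1 : HasDerivAt (fun x => Φ (u x)) _ x := (hdΦ (u x) hx3).comp x du
    have d2 := ((dl.const_mul 2).const_add 2).sub (((hasDerivAt_id' x).add dl).div du hux)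
    have d3 := d1.congr_of_eventuallyEq (f₁ := fun x => 2 + 2 * ell x - (x + ell x) / u x)
      (hx.mono fun y hy => hy.symm)
    have heq := d3.unique d2
    have hu' : u x = x / (2 - Complex.exp (-x)) := rfl
    simp only [Pi.add_apply] at heq
    have hgoal : H x = deriv Φ (u x) + 2 / u x - (x + ell x) / (u x) ^ 2 := rfl
    rw [hgoal]
    set E := Complex.exp (-x) with hE
    set s := 2 - E with hsdef
    have hE' : E = 2 - s := by rw [hsdef]; ring
    set d := deriv Φ (u x) with hd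
    rw [hu'] at heq ⊢
    rw [hE'] at heq ⊢
    field_simp at heq ⊢
    linear_combination heq
  have e2 : ∀ᶠ x in 𝓝[≠] x0, (2 - Complex.exp (-x)) - x * Complex.exp (-x) ≠ 0 := by
    have hd : HasDerivAt (fun x : ℂ => (2 - Complex.exp (-x)) - x * Complex.exp (-x))
        (x0 * Complex.exp (-x0)) x0 := by
      have h1 := contB_deriv_s x0
      have h2 : HasDerivAt (fun x : ℂ => Complex.exp (-x)) (-Complex.exp (-x0)) x0 := by
        simpa using (hasDerivAt_id x0).neg.cexp
      have h3 := h1.sub ((hasDerivAt_id' x0).mul h2)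
      refine h3.congr_deriv ?_
      ring
    have hne : x0 * Complex.exp (-x0) ≠ 0 := mul_ne_zero hx0 (Complex.exp_ne_zero _)
    have := hd.eventually_ne hne (c := 0)
    exact this
  have e3 : ∀ᶠ x in 𝓝[≠] x0, H x = 0 := by
    filter_upwards [e1.filter_mono nhdsWithin_le_nhds, e2] with x hx1 hx2
    exact (mul_eq_zero.mp hx1).resolve_right hx2
  -- the derivative of H at x0
  have hux0 : u x0 ≠ 0 := div_ne_zero hx0 hs0
  have hnum : (2 - Complex.exp (-x0)) - x0 * Complex.exp (-x0) = 0 := by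
    linear_combination hcrit
  have du0 : HasDerivAt u 0 x0 := by
    have := contB_deriv_u x0 hs0
    rwa [hnum, zero_div] at this
  have dl0 := contB_deriv_ell x0 hs
  have dH : HasDerivAt H (-(2 / ((2 - Complex.exp (-x0)) * (u x0) ^ 2))) x0 := by
    have a1 : HasDerivAt (fun x => deriv Φ (u x)) _ x0 :=
      (hddΦ (u x0) (by rw [mem_ball_zero_iff]; exact hu)).comp x0 du0
    have a2 := (hasDerivAt_const x0 (2 : ℂ)).div du0 hux0
    have a3 := ((hasDerivAt_id' x0).add dl0).div (du0.pow 2) (pow_ne_zero 2 hux0)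
    have a4 := (a1.add a2).sub a3
    refine a4.congr_deriv ?_
    simp only [mul_zero, zero_mul, sub_zero, zero_div, zero_add, Pi.pow_apply]
    field_simp
    ring
  have hH0 : H x0 = 0 := by
    have hc : Tendsto H (𝓝[≠] x0) (𝓝 (H x0)) := dH.continuousAt.tendsto.mono_left nhdsWithin_le_nhds
    have hz : Tendsto H (𝓝[≠] x0) (𝓝 0) :=
      tendsto_const_nhds.congr' (e3.mono fun x hx => hx.symm)
    exact tendsto_nhds_unique hc hz
  have hHev : H =ᶠ[𝓝 x0] fun _ => 0 := by
    rw [eventually_nhdsWithin_iff] at e3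
    filter_upwards [e3] with x hx
    by_cases hxx : x = x0
    · rw [hxx, hH0]
    · exact hx hxx
  have dH0 : HasDerivAt H 0 x0 := (hasDerivAt_const x0 (0 : ℂ)).congr_of_eventuallyEq hHev
  have := dH.unique dH0
  rw [neg_eq_zero, div_eq_zero_iff] at this
  rcases this with h2 | h2
  · norm_num at h2
  · exact (mul_ne_zero hs0 (pow_ne_zero 2 hux0)) h2

end Pool.Agent.Lib.MP_d38209_co.LB
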