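import Pool.Agent.Lib.MP_d38209_co.LB.Sign

/-!
# The critical point `x0 = a + i b`, `1 + x0 = 2 exp x0`

Intermediate value theorem for `G(b) = 2 exp(b cos b / sin b - 1) sin b - b` on
`[1.1326, 1.1327] ⊆ (0, π/2)` (`sign1`, `sign2`; continuity as `sin ≠ 0`): a zero `b`.  Put
`a = b cos b / sin b - 1`.  Then `exp a * sin b = b / 2` and
`exp a * cos b = exp a * sin b * (cos b / sin b) = (1 + a) / 2`.
Bounds: `cos`/`sin` are monotone on `[0, π/2]`, so by `Num`
`1.1326 cos 1.1327 / sin 1.1327 ≤ 1 + a ≤ 1.1327 cos 1.1326 / sin 1.1326`, so `-0.47 < a < -0.469`.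
`exp(-a) = 2 sin b / b ≥ 2 sin 1.1327 / 1.1327 > 1.5989`, because `sin t / t` is decreasing on
`(0, π]` (concavity: `strictConcaveOn_sin_Icc`, `sin b ≥ (b / 1.1327) sin 1.1327`).
The last inequality holds for all `a ∈ [-0.47, -0.469]`, `b ∈ [1.1326, 1.1327]` (value about
`0.105`), by interval arithmetic / `nlinarith`.
-/

namespace Pool.Agent.Lib.MP_d38209_co.LB

theorem crit : ∃ a b : ℝ, 0 < b ∧ b < Real.pi / 2 ∧ -(1 / 2) < a ∧ a < 0 ∧
    1.5989 < Real.exp (-a) ∧ Real.exp a * Real.cos b = (1 + a) / 2 ∧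
    Real.exp a * Real.sin b = b / 2 ∧
    0 ≤ a * (1 + a) * (a ^ 2 - 3 * b ^ 2) + b ^ 2 * (3 * a ^ 2 - b ^ 2) := by
  have hpi := Real.pi_gt_d2
  have hsinpos : ∀ b ∈ Set.Icc (1.1326 : ℝ) 1.1327, 0 < Real.sin b := by
    intro b hb
    refine Real.sin_pos_of_pos_of_lt_pi ?_ ?_
    · linarith [hb.1]
    · linarith [hb.2]
  have hcont : ContinuousOn (fun b : ℝ => 2 * Real.exp (b * Real.cos b / Real.sin b - 1) * Real.sin b - b)
      (Set.Icc (1.1326 : ℝ) 1.1327) := by
    have h1 : ContinuousOn (fun b : ℝ => b * Real.cos b / Real.sin b) (Set.Icc (1.1326 : ℝ) 1.1327) :=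
      ContinuousOn.div (by fun_prop) (by fun_prop) (fun b hb => (hsinpos b hb).ne')
    exact ((continuousOn_const.mul (Real.continuous_exp.comp_continuousOn
      (h1.sub continuousOn_const))).mul (by fun_prop)).sub (by fun_prop)
  have h0 : (0 : ℝ) ∈ Set.Icc
      ((fun b : ℝ => 2 * Real.exp (b * Real.cos b / Real.sin b - 1) * Real.sin b - b) 1.1327)
      ((fun b : ℝ => 2 * Real.exp (b * Real.cos b / Real.sin b - 1) * Real.sin b - b) 1.1326) := by
    refine ⟨?_, ?_⟩
    · have := sign2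
      simp only []
      linarith
    · have := sign1
      simp only []
      linarith
  obtain ⟨b, hb, hGb⟩ := intermediate_value_Icc' (by norm_num) hcont h0
  simp only [] at hGb
  have hsb := hsinpos b hb
  set a := b * Real.cos b / Real.sin b - 1 with ha
  have hes : Real.exp a * Real.sin b = b / 2 := by linarith
  have hec : Real.exp a * Real.cos b = (1 + a) / 2 := by
    have e1 : 1 + a = b * Real.cos b / Real.sin b := by rw [ha]; ring
    have e2 : Real.exp a * Real.cos b = (Real.exp a * Real.sin b) * Real.cos b / Real.sin b := by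
      field_simp
    rw [e2, hes, e1]; ring
  obtain ⟨hb1, hb2⟩ := hb
  have s1 := abs_le.mp sin1
  have c1 := abs_le.mp cos1
  have s2 := abs_le.mp sin2
  have c2 := abs_le.mp cos2
  have hs_lo : Real.sin 1.1326 ≤ Real.sin b :=
    Real.sin_le_sin_of_le_of_le_pi_div_two (by linarith) (by linarith) hb1
  have hs_hi : Real.sin b ≤ Real.sin 1.1327 :=
    Real.sin_le_sin_of_le_of_le_pi_div_two (by linarith) (by linarith) hb2
  have hc_lo : Real.cos 1.1327 ≤ Real.cos b :=
    Real.cos_le_cos_of_nonneg_of_le_pi (by linarith) (by linarith) hb2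
  have hc_hi : Real.cos b ≤ Real.cos 1.1326 :=
    Real.cos_le_cos_of_nonneg_of_le_pi (by norm_num) (by linarith) hb1
  have hsl : (0.90551844 : ℝ) ≤ Real.sin b := by norm_num at s1 ⊢; linarith
  have hsh : Real.sin b ≤ (0.90556088 : ℝ) := by norm_num at s2 ⊢; linarith
  have hcl : (0.42421633 : ℝ) ≤ Real.cos b := by norm_num at c2 ⊢; linarith
  have hch : Real.cos b ≤ (0.42430691 : ℝ) := by norm_num at c1 ⊢; linarith
  have hmul : (1 + a) * Real.sin b = b * Real.cos b := by
    have e1 : 1 + a = b * Real.cos b / Real.sin b := by rw [ha]; ring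
    rw [e1]; field_simp
  have ha_lo : -0.47 ≤ a := by
    by_contra hcon
    push Not at hcon
    have h1 : (1 + a) * Real.sin b < 0.53 * 0.90556088 := by nlinarith
    have h2 : (1.1326 : ℝ) * 0.42421633 ≤ b * Real.cos b := by nlinarith
    rw [hmul] at h1
    norm_num at h1 h2
    linarith
  have ha_hi : a ≤ -0.469 := by
    by_contra hcon
    push Not at hcon
    have h1 : 0.531 * 0.90551844 < (1 + a) * Real.sin b := by nlinarith
    have h2 : b * Real.cos b ≤ (1.1327 : ℝ) * 0.42430691 := by nlinarith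
    rw [hmul] at h1
    norm_num at h1 h2
    linarith
  refine ⟨a, b, by linarith, by linarith, by norm_num at ha_lo ⊢; linarith,
    by norm_num at ha_hi ⊢; linarith, ?_, hec, hes, ?_⟩
  · -- exp (-a) = 2 sin b / b
    have hb0 : 0 < b := by linarith
    have hlip : Real.sin 1.1327 - Real.sin b ≤ 1.1327 - b := by
      rw [Real.sin_sub_sin]
      have i1 : Real.sin ((1.1327 - b) / 2) ≤ (1.1327 - b) / 2 := Real.sin_le (by linarith)
      have i0 : 0 ≤ Real.sin ((1.1327 - b) / 2) :=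
        Real.sin_nonneg_of_nonneg_of_le_pi (by linarith) (by linarith)
      have i2 : Real.cos ((1.1327 + b) / 2) ≤ 1 := Real.cos_le_one _
      have i3 : Real.sin ((1.1327 - b) / 2) * Real.cos ((1.1327 + b) / 2) ≤
          Real.sin ((1.1327 - b) / 2) * 1 := mul_le_mul_of_nonneg_left i2 i0
      linarith
    have hkey : 1.5989 * b < 2 * Real.sin b := by
      have h2 := s2.1
      norm_num at h2 hlip hb1 hb2 ⊢
      linarith
    have hexp : Real.exp (-a) * b = 2 * Real.sin b := by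
      have e : Real.exp (-a) * Real.exp a = 1 := by rw [← Real.exp_add]; simp
      have : Real.exp (-a) * (Real.exp a * Real.sin b) = Real.exp (-a) * (b / 2) := by rw [hes]
      rw [← mul_assoc, e, one_mul] at this
      linarith
    rw [← hexp] at hkey
    exact lt_of_mul_lt_mul_right hkey hb0.le
  · have hb2a : (1.2827 : ℝ) ≤ b ^ 2 := by nlinarith
    have hb2b : b ^ 2 ≤ (1.2831 : ℝ) := by nlinarith
    have ha2a : (0.2199 : ℝ) ≤ a ^ 2 := by nlinarith
    have ha2b : a ^ 2 ≤ (0.221 : ℝ) := by nlinarith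
    have hp1 : (0.248 : ℝ) ≤ -(a * (1 + a)) := by nlinarith
    have hq1 : (3.6 : ℝ) ≤ 3 * b ^ 2 - a ^ 2 := by linarith
    have hr1 : b ^ 2 - 3 * a ^ 2 ≤ (0.6235 : ℝ) := by linarith
    have hl : 0.248 * 3.6 ≤ -(a * (1 + a)) * (3 * b ^ 2 - a ^ 2) :=
      mul_le_mul hp1 hq1 (by norm_num) (by linarith)
    have hr : b ^ 2 * (b ^ 2 - 3 * a ^ 2) ≤ 1.2831 * 0.6235 :=
      mul_le_mul hb2b hr1 (by linarith) (by norm_num)
    nlinarith

end Pool.Agent.Lib.MP_d38209_co.LB
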