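import Pool.Agent.Lib.MP_d38209_co.LB.Defs

/-!
# From integers `z` to points `x → 0`

`exists_x`: intermediate value theorem for `z x - 2 + exp(-x)` on `[0, 2/z]` (value `-1` at `0`,
`exp(-2/z) > 0` at `2/z`).
`freq`: for `z ≥ z0`, `x = X z > 0`, `u x = x / (2 - exp(-x)) = 1 / z` and
`log(2 exp x - 1) = x + log(2 - exp(-x))`, `z x = 2 - exp(-x)`, hence
`-L z x = 2 + 2 ell x - (x + ell x) / u x` (real logarithm = complex logarithm of the positive
number `2 - exp(-x) > 1`, `Complex.ofReal_log`).  As `0 < X z ≤ 2/z → 0`, these `x` accumulate at `0`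
inside `𝓝[≠] 0` (`Filter.Frequently` from `Tendsto ... (𝓝[≠] 0)` and `Eventually.frequently`:
`Tendsto.frequently`).
-/

namespace Pool.Agent.Lib.MP_d38209_co.LB

open Filter Topology

theorem exists_x (z : ℕ) (hz : 1 ≤ z) :
    ∃ x : ℝ, 0 < x ∧ x ≤ 2 / z ∧ (z : ℝ) * x = 2 - Real.exp (-x) := by
  have hz0 : (0 : ℝ) < z := by exact_mod_cast hz
  have hc : ContinuousOn (fun x : ℝ => (z : ℝ) * x - 2 + Real.exp (-x)) (Set.Icc 0 (2 / z)) := by
    fun_prop
  have h1 : (fun x : ℝ => (z : ℝ) * x - 2 + Real.exp (-x)) 0 ≤ 0 := by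
    simp
  have h2 : 0 ≤ (fun x : ℝ => (z : ℝ) * x - 2 + Real.exp (-x)) (2 / z) := by
    have : (z : ℝ) * (2 / z) = 2 := by field_simp
    simp only [this]
    have := Real.exp_pos (-(2 / (z : ℝ)))
    linarith
  obtain ⟨x, hx, hx0⟩ := intermediate_value_Icc (by positivity) hc ⟨h1, h2⟩
  simp only at hx0
  refine ⟨x, lt_of_le_of_ne hx.1 ?_, hx.2, by linarith⟩
  intro h
  rw [← h] at hx0
  norm_num at hx0

theorem freq (Φ : ℂ → ℂ) (z0 : ℕ) (X : ℕ → ℝ)
    (hX : ∀ z : ℕ, z0 ≤ z → 0 < X z ∧ X z ≤ 2 / z ∧ (z : ℝ) * X z = 2 - Real.exp (-(X z)))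
    (hΦ : ∀ z : ℕ, z0 ≤ z → Φ (1 / (z : ℂ)) = ((-(L z (X z)) : ℝ) : ℂ)) :
    ∃ᶠ x in 𝓝[≠] (0 : ℂ), Φ (u x) = 2 + 2 * ell x - (x + ell x) / u x := by
  have ht : Tendsto (fun z : ℕ => ((X z : ℝ) : ℂ)) atTop (𝓝[≠] (0 : ℂ)) := by
    refine tendsto_nhdsWithin_iff.mpr ⟨?_, ?_⟩
    · have h1 : Tendsto X atTop (𝓝 0) := by
        have h2 : Tendsto (fun z : ℕ => 2 / (z : ℝ)) atTop (𝓝 0) :=
          tendsto_const_div_atTop_nhds_zero_nat 2
        refine tendsto_of_tendsto_of_tendsto_of_le_of_le' tendsto_const_nhds h2 ?_ ?_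
        · filter_upwards [eventually_ge_atTop z0] with z hz using (hX z hz).1.le
        · filter_upwards [eventually_ge_atTop z0] with z hz using (hX z hz).2.1
      have h3 := (Complex.continuous_ofReal.tendsto 0).comp h1
      rw [Complex.ofReal_zero] at h3
      exact h3
    · filter_upwards [eventually_ge_atTop z0] with z hz
      have := (hX z hz).1.ne'
      simpa using this
  refine ht.frequently (Eventually.frequently ?_)
  filter_upwards [eventually_ge_atTop z0, eventually_ge_atTop 1] with z hz hz1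
  obtain ⟨hx0, -, hzx⟩ := hX z hz
  set x := X z with hxdef
  have hz0 : (0 : ℝ) < z := by exact_mod_cast hz1
  have hs : 0 < 2 - Real.exp (-x) := by
    rw [← hzx]
    positivity
  have hsC : (2 : ℂ) - Complex.exp (-(x : ℂ)) = ((2 - Real.exp (-x) : ℝ) : ℂ) := by
    push_cast
    rfl
  have hu : u (x : ℂ) = 1 / (z : ℂ) := by
    unfold u
    rw [hsC, ← hzx]
    have hxC : (x : ℂ) ≠ 0 := by exact_mod_cast hx0.ne'
    have hzC : (z : ℂ) ≠ 0 := by exact_mod_cast hz0.ne'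
    push_cast
    field_simp
  have hl : ell (x : ℂ) = ((Real.log (2 - Real.exp (-x)) : ℝ) : ℂ) := by
    unfold ell
    rw [hsC, Complex.ofReal_log hs.le]
  have hlog : Real.log (2 * Real.exp x - 1) = x + Real.log (2 - Real.exp (-x)) := by
    have : 2 * Real.exp x - 1 = Real.exp x * (2 - Real.exp (-x)) := by
      rw [mul_sub, ← Real.exp_add]
      simp
      ring
    rw [this, Real.log_mul (Real.exp_pos x).ne' hs.ne', Real.log_exp]
  rw [hu, hΦ z hz, hl, L, hlog, ← hxdef, hzx]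
  push_cast
  have hzC : (z : ℂ) ≠ 0 := by exact_mod_cast hz0.ne'
  field_simp
  ring

end Pool.Agent.Lib.MP_d38209_co.LB
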