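import Pool.Agent.Lib.MP_d38209_co.LB.Defs

/-!
# `q ↦ N D D q` is a monic polynomial of degree `2 D`

For a family `F : ℕ → ℂ[X]` put `(T F) m = m * F m + (X - m) * F (m + 1)`.  For every `q` and `j`,
splitting off the last value of `g` (`Fin.snocEquiv` / `Fin.consEquiv` / `Fin.insertNthEquiv`,
`Fintype.sum_equiv`, `Fintype.sum_prod_type`):
`∑_{g : Fin (j+1) → Fin q} F(|im g|) = ∑_{g : Fin j → Fin q} ∑_c F(|insert c (im g)|)
 = ∑_{g : Fin j → Fin q} (|im g| F(|im g|) + (q - |im g|) F(|im g| + 1))`,
hence by induction on `j` (for all `F`):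
`∑_{g : Fin j → Fin q} (F (|im g|)).eval q = ((T^[j] F) 0).eval q`.
With `F m = (X - m) ^ D` (note `(q - m : ℕ) = q - m` for `m = |im g| ≤ q`) the left side is
`N D j q`.  If every `F m` is monic of degree `d` then every `(T F) m` is monic of degree `d + 1`
(`Polynomial.Monic.add_of_right`, the first summand has degree `≤ d`).  So `P = (T^[D] F) 0` is
monic of degree `2 D`.
-/

namespace Pool.Agent.Lib.MP_d38209_co.LB

open Finset

/-- The operator of one more vertex on the second side. -/
private noncomputable def polyT (F : ℕ → Polynomial ℂ) (m : ℕ) : Polynomial ℂ :=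
  (m : Polynomial ℂ) * F m + (Polynomial.X - Polynomial.C (m : ℂ)) * F (m + 1)

private theorem poly_sum (q : ℕ) : ∀ (j : ℕ) (F : ℕ → Polynomial ℂ),
    ∑ g : Fin j → Fin q, (F ((univ.image g).card)).eval (q : ℂ) =
      ((polyT^[j] F) 0).eval (q : ℂ) := by
  intro j
  induction j with
  | zero =>
    intro F
    simp
  | succ j ih =>
    intro F
    rw [Function.iterate_succ_apply, ← ih (polyT F)]
    rw [← (Fin.consEquiv (fun _ : Fin (j + 1) => Fin q)).sum_comp, Fintype.sum_prod_type_right]
    refine sum_congr rfl fun g _ => ?_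
    set A := univ.image g with hA
    have himg : ∀ c : Fin q, univ.image (Fin.consEquiv (fun _ : Fin (j + 1) => Fin q) (c, g)) =
        insert c A := by
      intro c
      ext y
      simp only [mem_image, mem_univ, true_and, mem_insert, hA]
      constructor
      · rintro ⟨k, hk⟩
        refine Fin.cases ?_ ?_ k hk
        · intro h
          left
          simpa using h.symm
        · intro k h
          right
          exact ⟨k, by simpa using h⟩
      · rintro (h | ⟨k, hk⟩)
        · exact ⟨0, by simpa using h.symm⟩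
        · exact ⟨k.succ, by simpa using hk⟩
    simp only [himg]
    rw [← sum_add_sum_compl A]
    have e1 : ∑ c ∈ A, (F ((insert c A).card)).eval (q : ℂ) =
        (A.card : ℂ) * (F A.card).eval (q : ℂ) := by
      rw [sum_congr rfl (g := fun _ => (F A.card).eval (q : ℂ))
        (fun c hc => by rw [insert_eq_of_mem hc]), sum_const, nsmul_eq_mul]
    have e2 : ∑ c ∈ Aᶜ, (F ((insert c A).card)).eval (q : ℂ) =
        ((q : ℂ) - A.card) * (F (A.card + 1)).eval (q : ℂ) := by
      rw [sum_congr rfl (g := fun _ => (F (A.card + 1)).eval (q : ℂ))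
        (fun c hc => by rw [card_insert_of_notMem (mem_compl.mp hc)]), sum_const, nsmul_eq_mul,
        card_compl, Fintype.card_fin, Nat.cast_sub]
      simpa using card_le_univ A
    rw [e1, e2, polyT]
    simp

private theorem poly_monic : ∀ (j d : ℕ) (F : ℕ → Polynomial ℂ),
    (∀ m, (F m).Monic ∧ (F m).natDegree = d) →
    ∀ m, ((polyT^[j] F) m).Monic ∧ ((polyT^[j] F) m).natDegree = d + j := by
  intro j
  induction j with
  | zero =>
    intro d F h m
    simpa using h m
  | succ j ih =>
    intro d F h m
    rw [Function.iterate_succ_apply]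
    have := ih (d + 1) (polyT F) (fun m => ?_) m
    · rw [show d + (j + 1) = d + 1 + j by ring]
      exact this
    · have hX : (Polynomial.X - Polynomial.C (m : ℂ)).Monic := Polynomial.monic_X_sub_C _
      have hM : ((Polynomial.X - Polynomial.C (m : ℂ)) * F (m + 1)).Monic :=
        hX.mul (h (m + 1)).1
      have hdM : ((Polynomial.X - Polynomial.C (m : ℂ)) * F (m + 1)).natDegree = d + 1 := by
        rw [hX.natDegree_mul (h (m + 1)).1, Polynomial.natDegree_X_sub_C, (h (m + 1)).2]
        ring
      have hle : ((m : Polynomial ℂ) * F m).degree <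
          ((Polynomial.X - Polynomial.C (m : ℂ)) * F (m + 1)).degree := by
        rw [Polynomial.degree_eq_natDegree hM.ne_zero, hdM]
        refine lt_of_le_of_lt Polynomial.degree_le_natDegree ?_
        have : ((m : Polynomial ℂ) * F m).natDegree ≤ d := by
          refine Polynomial.natDegree_mul_le.trans ?_
          rw [(h m).2]
          simp
        exact_mod_cast Nat.lt_succ_of_le this
      refine ⟨Polynomial.Monic.add_of_right hM hle, ?_⟩
      rw [polyT, Polynomial.natDegree_add_eq_right_of_degree_lt hle, hdM]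

theorem exists_poly (D : ℕ) : ∃ P : Polynomial ℂ, P.Monic ∧ P.natDegree = 2 * D ∧
    ∀ k : ℕ, P.eval (k : ℂ) = (N D D k : ℂ) := by
  set F : ℕ → Polynomial ℂ := fun m => (Polynomial.X - Polynomial.C (m : ℂ)) ^ D with hF
  have hmon : ∀ m, (F m).Monic ∧ (F m).natDegree = D := by
    intro m
    refine ⟨(Polynomial.monic_X_sub_C _).pow D, ?_⟩
    change ((Polynomial.X - Polynomial.C (m : ℂ)) ^ D).natDegree = D
    rw [Polynomial.natDegree_pow, Polynomial.natDegree_X_sub_C, mul_one]
  refine ⟨(polyT^[D] F) 0, (poly_monic D D F hmon 0).1, ?_, ?_⟩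
  · rw [(poly_monic D D F hmon 0).2]
    ring
  · intro k
    rw [← poly_sum k D F, N]
    push_cast
    refine sum_congr rfl fun g _ => ?_
    have hle : (univ.image g).card ≤ k := by
      simpa using card_le_univ (univ.image g)
    rw [hF]
    simp [Nat.cast_sub hle]

end Pool.Agent.Lib.MP_d38209_co.LB
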