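import Mathlib

/-!
# The logarithm of a monic polynomial as a power series in `1/z`

Let `q_1, …, q_{2n}` be the roots of `P` (`IsAlgClosed.splits`, `Polynomial.Splits...`:
`P = (P.roots.map (X - C ·)).prod` for a monic polynomial over `ℂ`,
`Multiset.card P.roots = P.natDegree`), `w_j = q_j / n`, `‖w_j‖ ≤ R`.
Put `r k = Re (∑_j w_j^(k+1)) / n`.  For real `z > R`:
`‖P(z n)‖ / (z n)^(2n) = ∏_j ‖1 - w_j / z‖`, `log ‖1 - v‖ = Re log (1 - v) = - ∑_k Re v^(k+1)/(k+1)`
for `‖v‖ < 1` (`Complex.hasSum_taylorSeries_neg_log`, `Complex.log_re`); sum over the finite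
multiset of roots (`Multiset.induction` or `Multiset.toList`/`Fin`-indexing) and divide by `n`.
-/

namespace Pool.Agent.Lib.MP_d38209_co.LB

private lemma Roots_single {w : ℂ} {z : ℝ} (hz : 0 < z) (hw : ‖w‖ < z) :
    HasSum (fun k : ℕ => (w ^ (k + 1)).re / (k + 1) * (1 / z) ^ (k + 1))
      (-Real.log ‖1 - w / (z : ℂ)‖) := by
  have hv : ‖w / (z : ℂ)‖ < 1 := by
    rw [norm_div, Complex.norm_real, Real.norm_of_nonneg hz.le, div_lt_one hz]
    exact hw
  have h1 := Complex.hasSum_taylorSeries_neg_log hv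
  have h2 := (hasSum_nat_add_iff' 1).2 h1
  have h3 := Complex.hasSum_re h2
  have e1 : (-Complex.log (1 - w / (z : ℂ)) -
      ∑ i ∈ Finset.range 1, (w / (z : ℂ)) ^ i / (i : ℂ)).re = -Real.log ‖1 - w / (z : ℂ)‖ := by
    simp [Complex.log_re]
  rw [e1] at h3
  have e2 : (fun k : ℕ => (w ^ (k + 1)).re / (k + 1) * (1 / z) ^ (k + 1)) =
      fun k : ℕ => ((w / (z : ℂ)) ^ (k + 1) / ((k + 1 : ℕ) : ℂ)).re := by
    funext k
    have e3 : (w / (z : ℂ)) ^ (k + 1) / ((k + 1 : ℕ) : ℂ) =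
        ((1 / ((k : ℝ) + 1) * (1 / z) ^ (k + 1) : ℝ) : ℂ) * w ^ (k + 1) := by
      push_cast
      rw [div_pow, one_div, one_div, inv_pow]
      ring
    rw [e3, Complex.re_ofReal_mul]
    ring
  rw [e2]
  exact h3

private lemma Roots_mset (s : Multiset ℂ) {n : ℕ} (hn : 0 < n) {R z : ℝ} (hR : 0 < R)
    (hz : R < z) (hs : ∀ q ∈ s, ‖q‖ ≤ R * n) :
    HasSum (fun k : ℕ => (s.map fun q => ((q / (n : ℂ)) ^ (k + 1)).re).sum / (k + 1) *
      (1 / z) ^ (k + 1))
      (-(Real.log ((s.map fun q => ‖((z * n : ℝ) : ℂ) - q‖).prod / (z * n) ^ s.card))) ∧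
      0 < (s.map fun q => ‖((z * n : ℝ) : ℂ) - q‖).prod := by
  have hn' : (0 : ℝ) < n := by exact_mod_cast hn
  have hz0 : 0 < z := hR.trans hz
  induction s using Multiset.induction_on with
  | empty =>
    refine ⟨?_, by simp⟩
    simp only [Multiset.map_zero, Multiset.sum_zero, Multiset.prod_zero, Multiset.card_zero,
      pow_zero, div_one, Real.log_one, neg_zero, zero_div, zero_mul]
    exact hasSum_zero
  | cons q s ih =>
    obtain ⟨ih1, ih2⟩ := ih fun x hx => hs x (Multiset.mem_cons_of_mem hx)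
    have hq := hs q (Multiset.mem_cons_self q s)
    have hw : ‖q / (n : ℂ)‖ < z := by
      rw [norm_div, Complex.norm_natCast, div_lt_iff₀ hn']
      exact hq.trans_lt (mul_lt_mul_of_pos_right hz hn')
    have h1 := (Roots_single hz0 hw).add ih1
    have hzn : (0 : ℝ) < z * n := mul_pos hz0 hn'
    have hfac : ‖((z * n : ℝ) : ℂ) - q‖ = (z * n) * ‖1 - q / (n : ℂ) / (z : ℂ)‖ := by
      have e1 : ((z * n : ℝ) : ℂ) - q = ((z * n : ℝ) : ℂ) * (1 - q / (n : ℂ) / (z : ℂ)) := by
        have hnc : (n : ℂ) ≠ 0 := by exact_mod_cast hn.ne'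
        have hzc : (z : ℂ) ≠ 0 := by exact_mod_cast hz0.ne'
        push_cast
        field_simp
      rw [e1, norm_mul, Complex.norm_real, Real.norm_of_nonneg hzn.le]
    have hpos : 0 < ‖1 - q / (n : ℂ) / (z : ℂ)‖ := by
      rw [norm_pos_iff]
      intro h0
      have h2 : q / (n : ℂ) / (z : ℂ) = 1 := (sub_eq_zero.1 h0).symm
      have h3 : ‖q / (n : ℂ) / (z : ℂ)‖ < 1 := by
        rw [norm_div, Complex.norm_real, Real.norm_of_nonneg hz0.le, div_lt_one hz0]
        exact hw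
      rw [h2, norm_one] at h3
      exact lt_irrefl _ h3
    refine ⟨?_, ?_⟩
    · have e2 : (fun k : ℕ => ((q ::ₘ s).map fun q => ((q / (n : ℂ)) ^ (k + 1)).re).sum /
          (k + 1) * (1 / z) ^ (k + 1)) = fun k : ℕ =>
          ((q / (n : ℂ)) ^ (k + 1)).re / (k + 1) * (1 / z) ^ (k + 1) +
          (s.map fun q => ((q / (n : ℂ)) ^ (k + 1)).re).sum / (k + 1) * (1 / z) ^ (k + 1) := by
        funext k
        rw [Multiset.map_cons, Multiset.sum_cons]
        ring
      have e3 : -(Real.log (((q ::ₘ s).map fun q => ‖((z * n : ℝ) : ℂ) - q‖).prod /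
          (z * n) ^ (q ::ₘ s).card)) = -Real.log ‖1 - q / (n : ℂ) / (z : ℂ)‖ +
          -(Real.log ((s.map fun q => ‖((z * n : ℝ) : ℂ) - q‖).prod / (z * n) ^ s.card)) := by
        rw [Multiset.map_cons, Multiset.prod_cons, Multiset.card_cons, pow_succ, hfac]
        have e4 : z * n * ‖1 - q / (n : ℂ) / (z : ℂ)‖ *
            (s.map fun q => ‖((z * n : ℝ) : ℂ) - q‖).prod / ((z * n) ^ s.card * (z * n)) =
            ‖1 - q / (n : ℂ) / (z : ℂ)‖ *
            ((s.map fun q => ‖((z * n : ℝ) : ℂ) - q‖).prod / (z * n) ^ s.card) := by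
          have := hzn.ne'
          field_simp
        rw [e4, Real.log_mul hpos.ne' (div_pos ih2 (pow_pos hzn _)).ne']
        ring
      rw [e2, e3]
      exact h1
    · rw [Multiset.map_cons, Multiset.prod_cons, hfac]
      exact mul_pos (mul_pos hzn hpos) ih2

private lemma Roots_nprod (s : Multiset ℂ) (x : ℂ) :
    ‖(s.map fun q => x - q).prod‖ = (s.map fun q => ‖x - q‖).prod := by
  induction s using Multiset.induction_on with
  | empty => simp
  | cons q s ih =>
    rw [Multiset.map_cons, Multiset.prod_cons, Multiset.map_cons, Multiset.prod_cons,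
      norm_mul, ih]

private lemma Roots_bound (s : Multiset ℂ) {n : ℕ} (hn : 0 < n) {R : ℝ} (hR : 0 < R)
    (hs : ∀ q ∈ s, ‖q‖ ≤ R * n) (k : ℕ) :
    |(s.map fun q => ((q / (n : ℂ)) ^ (k + 1)).re).sum| ≤ s.card * R ^ (k + 1) := by
  have hn' : (0 : ℝ) < n := by exact_mod_cast hn
  induction s using Multiset.induction_on with
  | empty => simp
  | cons q s ih =>
    have ih1 := ih fun x hx => hs x (Multiset.mem_cons_of_mem hx)
    have hq := hs q (Multiset.mem_cons_self q s)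
    have h1 : |((q / (n : ℂ)) ^ (k + 1)).re| ≤ R ^ (k + 1) := by
      refine (Complex.abs_re_le_norm _).trans ?_
      rw [norm_pow]
      refine pow_le_pow_left₀ (norm_nonneg _) ?_ _
      rw [norm_div, Complex.norm_natCast, div_le_iff₀ hn']
      exact hq
    rw [Multiset.map_cons, Multiset.sum_cons, Multiset.card_cons]
    refine (abs_add_le _ _).trans ?_
    push_cast
    linarith

theorem log_series (P : Polynomial ℂ) (hP : P.Monic) (n : ℕ) (hn : 0 < n)
    (hdeg : P.natDegree = 2 * n) (R : ℝ) (hR : 0 < R)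
    (hroots : ∀ q : ℂ, P.eval q = 0 → ‖q‖ ≤ R * n) :
    ∃ r : ℕ → ℝ, (∀ k, |r k| ≤ 2 * R ^ (k + 1)) ∧
      ∀ z : ℝ, R < z → HasSum (fun k : ℕ => r k / (k + 1) * (1 / z) ^ (k + 1))
        (-(Real.log (‖P.eval ((z * n : ℝ) : ℂ)‖ / (z * n) ^ (2 * n)) / n)) := by
  have hn' : (0 : ℝ) < n := by exact_mod_cast hn
  have hsp : P.Splits := IsAlgClosed.splits P
  have hcard : P.roots.card = 2 * n := by rw [← hsp.natDegree_eq_card_roots, hdeg]
  have hs : ∀ q ∈ P.roots, ‖q‖ ≤ R * n := fun q hq =>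
    hroots q ((Polynomial.mem_roots hP.ne_zero).1 hq)
  refine ⟨fun k => (P.roots.map fun q => ((q / (n : ℂ)) ^ (k + 1)).re).sum / n,
    fun k => ?_, fun z hz => ?_⟩
  · rw [abs_div, abs_of_pos hn', div_le_iff₀ hn']
    have := Roots_bound P.roots hn hR hs k
    rw [hcard] at this
    push_cast at this
    linarith
  · have h1 := (Roots_mset P.roots hn hR hz hs).1
    have h2 := h1.div_const (n : ℝ)
    have e1 : (fun k : ℕ => (P.roots.map fun q => ((q / (n : ℂ)) ^ (k + 1)).re).sum / n /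
        (k + 1) * (1 / z) ^ (k + 1)) = fun k : ℕ =>
        (P.roots.map fun q => ((q / (n : ℂ)) ^ (k + 1)).re).sum / (k + 1) *
          (1 / z) ^ (k + 1) / n := by
      funext k
      ring
    have e2 : ‖P.eval ((z * n : ℝ) : ℂ)‖ =
        (P.roots.map fun q => ‖((z * n : ℝ) : ℂ) - q‖).prod := by
      rw [hsp.eval_eq_prod_roots_of_monic hP]
      exact Roots_nprod P.roots _
    rw [hcard, ← e2] at h2
    show HasSum (fun k : ℕ => (P.roots.map fun q => ((q / (n : ℂ)) ^ (k + 1)).re).sum / n /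
        (k + 1) * (1 / z) ^ (k + 1)) _
    rw [e1, ← neg_div]
    exact h2

end Pool.Agent.Lib.MP_d38209_co.LB
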