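import Pool.Agent.Lib.MP_d38209_co.LB.Mono

/-!
# The segment: slit plane and norm of `u`

`norm_u`: `‖2 - exp(-t x0)‖² = hh a b t` (`Complex.sq_norm`, `Complex.exp_re`, `Complex.exp_im`;
`exp(-t x0) = e^{-at} (cos(bt) - i sin(bt))`, `cos² + sin² = 1`) and `‖t x0‖² = t² (a² + b²)`; with
`hh_ge`: `‖u (t x0)‖ ≤ exp a` (also `t = 0`).
`slit`: for `t = 0` the number is `1`; for `t ∈ (0,1]` its imaginary part is
`e^{-at} sin(bt) > 0`.
-/

namespace Pool.Agent.Lib.MP_d38209_co.LB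

private theorem slit_re (a b t : ℝ) :
    (2 - Complex.exp (-((t : ℂ) * (a + b * Complex.I)))).re =
      2 - Real.exp (-(a * t)) * Real.cos (b * t) := by
  have h1 : (-((t : ℂ) * (a + b * Complex.I))).re = -(a * t) := by
    simp [Complex.mul_re, Complex.mul_im]
    ring
  have h2 : (-((t : ℂ) * (a + b * Complex.I))).im = -(b * t) := by
    simp [Complex.mul_re, Complex.mul_im]
    ring
  rw [Complex.sub_re, Complex.exp_re, h1, h2, Real.cos_neg]
  simp

private theorem slit_im (a b t : ℝ) :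
    (2 - Complex.exp (-((t : ℂ) * (a + b * Complex.I)))).im =
      Real.exp (-(a * t)) * Real.sin (b * t) := by
  have h1 : (-((t : ℂ) * (a + b * Complex.I))).re = -(a * t) := by
    simp [Complex.mul_re, Complex.mul_im]
    ring
  have h2 : (-((t : ℂ) * (a + b * Complex.I))).im = -(b * t) := by
    simp [Complex.mul_re, Complex.mul_im]
    ring
  rw [Complex.sub_im, Complex.exp_im, h1, h2, Real.sin_neg]
  simp

private theorem slit_norm_sq (a b t : ℝ) :
    ‖2 - Complex.exp (-((t : ℂ) * (a + b * Complex.I)))‖ ^ 2 = hh a b t := by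
  rw [Complex.sq_norm, Complex.normSq_apply, slit_re, slit_im, hh]
  have e : Real.exp (-(2 * a * t)) = Real.exp (-(a * t)) ^ 2 := by
    rw [sq, ← Real.exp_add]
    congr 1
    ring
  rw [e]
  have := Real.sin_sq_add_cos_sq (b * t)
  linear_combination Real.exp (-(a * t)) ^ 2 * this

theorem norm_u (a b : ℝ) (hb : 0 < b) (hb2 : b < Real.pi / 2) (ha : -(1 / 2) < a) (ha0 : a < 0)
    (h1 : Real.exp a * Real.cos b = (1 + a) / 2) (h2 : Real.exp a * Real.sin b = b / 2)
    (h3 : 0 ≤ a * (1 + a) * (a ^ 2 - 3 * b ^ 2) + b ^ 2 * (3 * a ^ 2 - b ^ 2)) :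
    ∀ t ∈ Set.Icc (0 : ℝ) 1, ‖u ((t : ℂ) * (a + b * Complex.I))‖ ≤ Real.exp a := by
  obtain ⟨e1, e2⟩ := hh_ge a b hb hb2 ha ha0 h1 h2 h3
  intro t ht
  have hab : 0 < a ^ 2 + b ^ 2 := by positivity
  rcases ht.1.eq_or_lt with h0 | h0
  · rw [← h0]
    simp only [u, Complex.ofReal_zero, zero_mul, zero_div, norm_zero]
    exact (Real.exp_pos a).le
  have hge := e2 t ht
  have hpos1 : 0 < hh a b 1 := by
    rw [e1]
    exact mul_pos (Real.exp_pos _) hab
  have hpos : 0 < hh a b t := lt_of_lt_of_le (by positivity) hge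
  have hnum : ‖(t : ℂ) * (a + b * Complex.I)‖ ^ 2 = t ^ 2 * (a ^ 2 + b ^ 2) := by
    rw [Complex.sq_norm, Complex.normSq_apply]
    simp [Complex.mul_re, Complex.mul_im]
    ring
  have hsq : ‖u ((t : ℂ) * (a + b * Complex.I))‖ ^ 2 = t ^ 2 * (a ^ 2 + b ^ 2) / hh a b t := by
    rw [u, norm_div, div_pow, hnum, slit_norm_sq]
  have hexp : Real.exp a ^ 2 * Real.exp (-(2 * a)) = 1 := by
    rw [sq, ← Real.exp_add, ← Real.exp_add, show a + a + -(2 * a) = 0 by ring, Real.exp_zero]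
  have hle : ‖u ((t : ℂ) * (a + b * Complex.I))‖ ^ 2 ≤ Real.exp a ^ 2 := by
    rw [hsq, div_le_iff₀ hpos]
    calc t ^ 2 * (a ^ 2 + b ^ 2) = Real.exp a ^ 2 * (t ^ 2 * hh a b 1) := by
          rw [e1]
          linear_combination -(t ^ 2 * (a ^ 2 + b ^ 2)) * hexp
      _ ≤ Real.exp a ^ 2 * hh a b t := mul_le_mul_of_nonneg_left hge (by positivity)
  exact (pow_le_pow_iff_left₀ (norm_nonneg _) (Real.exp_pos a).le two_ne_zero).mp hle

theorem slit (a b : ℝ) (hb : 0 < b) (hb2 : b < Real.pi / 2) :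
    ∀ t ∈ Set.Icc (0 : ℝ) 1,
      2 - Complex.exp (-((t : ℂ) * (a + b * Complex.I))) ∈ Complex.slitPlane := by
  intro t ht
  rcases ht.1.eq_or_lt with h0 | h0
  · rw [← h0]
    left
    simp
  · right
    rw [slit_im]
    have h1 : 0 < Real.sin (b * t) := by
      apply Real.sin_pos_of_pos_of_lt_pi (mul_pos hb h0)
      have : b * t ≤ b := by nlinarith [ht.2]
      linarith [Real.pi_pos]
    exact (mul_pos (Real.exp_pos _) h1).ne'

/-- `2 = (1 + x0) exp(-x0)` from the two real equations. -/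
theorem crit_eq (a b : ℝ) (h1 : Real.exp a * Real.cos b = (1 + a) / 2)
    (h2 : Real.exp a * Real.sin b = b / 2) :
    (1 : ℂ) + (a + b * Complex.I) = 2 * Complex.exp (a + b * Complex.I) := by
  apply Complex.ext
  · rw [Complex.mul_re, Complex.exp_re, Complex.exp_im]
    simp
    linarith
  · rw [Complex.mul_im, Complex.exp_re, Complex.exp_im]
    simp
    linarith

end Pool.Agent.Lib.MP_d38209_co.LB
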