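import Mathlib

/-!
# Passing to the limit along an ultrafilter

Choose for every `n ∈ S` a sequence `r n k`, and put `r n k = 0` for `n ∉ S`.  Let `F` be an
ultrafilter with `F ≤ atTop ⊓ 𝓟 S` (`Filter.frequently_mem_iff_neBot`, `Ultrafilter.of`,
`Ultrafilter.of_le`).  As `r n k` lies in the compact interval `[-2 R^(k+1), 2 R^(k+1)]`, it
converges along `F` to some `ρ k` (`IsCompact.ultrafilter_le_nhds`, applied to `F.map (r · k)`), with
`|ρ k| ≤ 2 R^(k+1)`.  Put `Φ w = ∑' k, ρ k / (k+1) * w^(k+1)`.  It is differentiable on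
`ball 0 (1/R)`: on each smaller ball of radius `s < 1/R` use
`differentiableOn_tsum_of_summable_norm` with the bound `2 (R s)^(k+1)` (`DifferentiableOn` is a
local property; the ball is the union of smaller open balls).  For `z ≥ z0`,
`∑' r n k/(k+1) (1/z)^(k+1) = - h n z` for `n ∈ S`; the left side tends along `F` to
`Φ (1/z)` (`tendsto_tsum_of_dominated_convergence` with bound `2 (R/z)^(k+1)`), the right side to
`- Lz z`; uniqueness of limits.
-/

namespace Pool.Agent.Lib.MP_d38209_co.LB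

open Filter Topology

theorem exists_Phi (R : ℝ) (hR : 0 < R) (S : Set ℕ) (hS : ∃ᶠ n in atTop, n ∈ S)
    (h : ℕ → ℕ → ℝ) (Lz : ℕ → ℝ) (z0 : ℕ) (hz0 : ∀ z : ℕ, z0 ≤ z → R < z)
    (hlim : ∀ z, z0 ≤ z → Tendsto (fun n => h n z) atTop (𝓝 (Lz z)))
    (hr : ∀ n ∈ S, ∃ r : ℕ → ℝ, (∀ k, |r k| ≤ 2 * R ^ (k + 1)) ∧
      ∀ z : ℕ, z0 ≤ z → HasSum (fun k : ℕ => r k / (k + 1) * (1 / (z : ℝ)) ^ (k + 1)) (-(h n z))) :
    ∃ Φ : ℂ → ℂ, DifferentiableOn ℂ Φ (Metric.ball 0 (1 / R)) ∧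
      ∀ z : ℕ, z0 ≤ z → Φ (1 / (z : ℂ)) = ((-(Lz z) : ℝ) : ℂ) := by
  classical
  choose! r hrb hrs using hr
  haveI : NeBot (atTop ⊓ 𝓟 S) := frequently_mem_iff_neBot.mp hS
  obtain ⟨F, hF⟩ := Ultrafilter.exists_le (atTop ⊓ 𝓟 S)
  have hFT : (F : Filter ℕ) ≤ atTop := hF.trans inf_le_left
  have hFS : ∀ᶠ n in (F : Filter ℕ), n ∈ S := (hF.trans inf_le_right) (mem_principal_self S)
  have hρ : ∀ k, ∃ ρ : ℝ, |ρ| ≤ 2 * R ^ (k + 1) ∧ Tendsto (fun n => r n k) F (𝓝 ρ) := by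
    intro k
    have hc : IsCompact (Set.Icc (-(2 * R ^ (k + 1))) (2 * R ^ (k + 1))) := isCompact_Icc
    obtain ⟨ρ, hρm, hρ⟩ := hc.ultrafilter_le_nhds (F.map (fun n => r n k)) (by
      rw [le_principal_iff]
      show ∀ᶠ n in (F : Filter ℕ), r n k ∈ Set.Icc (-(2 * R ^ (k + 1))) (2 * R ^ (k + 1))
      filter_upwards [hFS] with n hn
      exact abs_le.mp (hrb n hn k))
    exact ⟨ρ, abs_le.mpr hρm, hρ⟩
  choose ρ hρb hρt using hρ
  have hterm : ∀ (s : ℝ) (w : ℂ), ‖w‖ ≤ s → ∀ (a : ℝ) (k : ℕ), |a| ≤ 2 * R ^ (k + 1) →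
      ‖(a : ℂ) / ((k : ℂ) + 1) * w ^ (k + 1)‖ ≤ 2 * (R * s) ^ (k + 1) := by
    intro s w hw a k ha
    have hs0 : 0 ≤ s := (norm_nonneg w).trans hw
    rw [norm_mul, norm_div, norm_pow, Complex.norm_real, Real.norm_eq_abs]
    have h1 : ‖((k : ℂ) + 1)‖ = (k : ℝ) + 1 := by
      have : ((k : ℂ) + 1) = (((k : ℝ) + 1 : ℝ) : ℂ) := by push_cast; ring
      rw [this, Complex.norm_real, Real.norm_eq_abs, abs_of_nonneg (by positivity)]
    rw [h1]
    have h2 : |a| / ((k : ℝ) + 1) ≤ 2 * R ^ (k + 1) := by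
      have hk : (1 : ℝ) ≤ (k : ℝ) + 1 := by
        have : (0 : ℝ) ≤ (k : ℝ) := Nat.cast_nonneg k
        linarith
      exact (div_le_self (abs_nonneg a) hk).trans ha
    calc |a| / ((k : ℝ) + 1) * ‖w‖ ^ (k + 1) ≤ 2 * R ^ (k + 1) * s ^ (k + 1) := by
          apply mul_le_mul h2 (pow_le_pow_left₀ (norm_nonneg w) hw _) (by positivity)
            (by positivity)
      _ = 2 * (R * s) ^ (k + 1) := by rw [mul_pow]; ring
  have hsum : ∀ s : ℝ, 0 ≤ s → s < 1 / R → Summable (fun k : ℕ => 2 * (R * s) ^ (k + 1)) := by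
    intro s hs0 hs
    have h1 : R * s < 1 := by
      rw [lt_div_iff₀ hR] at hs
      linarith [mul_comm R s]
    have h2 : Summable (fun k : ℕ => (R * s) ^ k) :=
      summable_geometric_of_lt_one (by positivity) h1
    have h3 := (h2.mul_left (2 * (R * s)))
    refine h3.congr ?_
    intro k
    rw [pow_succ]; ring
  refine ⟨fun w => ∑' k : ℕ, (ρ k : ℂ) / ((k : ℂ) + 1) * w ^ (k + 1), ?_, ?_⟩
  · intro w hw
    rw [mem_ball_zero_iff] at hw
    obtain ⟨s, hs1, hs2⟩ := exists_between hw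
    have hs0 : 0 ≤ s := (norm_nonneg w).trans hs1.le
    have hd : DifferentiableOn ℂ (fun w : ℂ => ∑' k : ℕ, (ρ k : ℂ) / ((k : ℂ) + 1) * w ^ (k + 1))
        (Metric.ball 0 s) := by
      refine Complex.differentiableOn_tsum_of_summable_norm (hsum s hs0 hs2) ?_ Metric.isOpen_ball ?_
      · intro k
        exact ((differentiable_const _).mul (differentiable_id.pow _)).differentiableOn
      · intro k v hv
        rw [mem_ball_zero_iff] at hv
        exact hterm s v hv.le (ρ k) k (hρb k)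
    have hmem : Metric.ball (0 : ℂ) s ∈ 𝓝 w :=
      Metric.isOpen_ball.mem_nhds (by rw [mem_ball_zero_iff]; exact hs1)
    exact ((hd w (mem_of_mem_nhds hmem)).differentiableAt hmem).differentiableWithinAt
  · intro z hz
    have hzR : R < (z : ℝ) := hz0 z hz
    have hzpos : (0 : ℝ) < (z : ℝ) := hR.trans hzR
    have hnorm : ‖(1 / (z : ℂ))‖ = 1 / (z : ℝ) := by
      rw [norm_div, norm_one, Complex.norm_natCast]
    have hlt : 1 / (z : ℝ) < 1 / R := one_div_lt_one_div_of_lt hR hzR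
    have h1 : Tendsto (fun n => ∑' k : ℕ, ((r n k : ℝ) : ℂ) / ((k : ℂ) + 1) * (1 / (z : ℂ)) ^ (k + 1))
        F (𝓝 (∑' k : ℕ, (ρ k : ℂ) / ((k : ℂ) + 1) * (1 / (z : ℂ)) ^ (k + 1))) := by
      refine tendsto_tsum_of_dominated_convergence (hsum (1 / (z : ℝ)) (by positivity) hlt) ?_ ?_
      · intro k
        have := (Complex.continuous_ofReal.tendsto (ρ k)).comp (hρt k)
        exact (this.div_const _).mul_const _
      · filter_upwards [hFS] with n hn k
        exact hterm _ _ hnorm.le (r n k) k (hrb n hn k)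
    have h2 : Tendsto (fun n => ((-(h n z) : ℝ) : ℂ)) F (𝓝 ((-(Lz z) : ℝ) : ℂ)) := by
      have := ((hlim z hz).mono_left hFT).neg
      exact (Complex.continuous_ofReal.tendsto _).comp this
    have h3 : (fun n => ∑' k : ℕ, ((r n k : ℝ) : ℂ) / ((k : ℂ) + 1) * (1 / (z : ℂ)) ^ (k + 1))
        =ᶠ[(F : Filter ℕ)] (fun n => ((-(h n z) : ℝ) : ℂ)) := by
      filter_upwards [hFS] with n hn
      have h4 := (hrs n hn z hz)
      have h5 : HasSum (fun k : ℕ => ((r n k / (k + 1) * (1 / (z : ℝ)) ^ (k + 1) : ℝ) : ℂ))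
          ((-(h n z) : ℝ) : ℂ) := Complex.hasSum_ofReal.mpr h4
      rw [← h5.tsum_eq]
      refine tsum_congr ?_
      intro k
      push_cast
      ring
    exact tendsto_nhds_unique (h1.congr' h3) h2 |>.symm ▸ rfl

end Pool.Agent.Lib.MP_d38209_co.LB
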