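import Pool.Agent.Lib.MP_d38209_co.LB.Lim
import Pool.Agent.Lib.MP_d38209_co.LB.Poly
import Pool.Agent.Lib.MP_d38209_co.LB.Roots
import Pool.Agent.Lib.MP_d38209_co.LB.Ultra
import Pool.Agent.Lib.MP_d38209_co.LB.Freq
import Pool.Agent.Lib.MP_d38209_co.LB.ContA
import Pool.Agent.Lib.MP_d38209_co.LB.ContB
import Pool.Agent.Lib.MP_d38209_co.LB.Crit
import Pool.Agent.Lib.MP_d38209_co.LB.Slit

/-!
# Assembly
-/

namespace Pool.Agent.Lib.MP_d38209_co.LB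

open Filter Topology

theorem lower (a b : ℝ) (hb : 0 < b) (hb2 : b < Real.pi / 2) (ha : -(1 / 2) < a) (ha0 : a < 0)
    (h1 : Real.exp a * Real.cos b = (1 + a) / 2) (h2 : Real.exp a * Real.sin b = b / 2)
    (h3 : 0 ≤ a * (1 + a) * (a ^ 2 - 3 * b ^ 2) + b ^ 2 * (3 * a ^ 2 - b ^ 2))
    (R : ℝ) (hR : R < Real.exp (-a)) :
    ∀ᶠ D : ℕ in atTop, ∀ P : Polynomial ℂ, P.Monic → P.natDegree = 2 * D →
      (∀ k : ℕ, P.eval (k : ℂ) = (N D D k : ℂ)) → ∃ q : ℂ, P.eval q = 0 ∧ R * D < ‖q‖ := by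
  -- without loss of generality `R > 0`
  wlog hR0 : 0 < R generalizing R
  · have h := this (1 / 2) (lt_of_lt_of_le (by norm_num)
      (Real.one_le_exp (by linarith : 0 ≤ -a))) (by norm_num)
    filter_upwards [h, eventually_gt_atTop 0] with D hD hD0 P hP hdeg hev
    obtain ⟨q, hq, hq2⟩ := hD P hP hdeg hev
    refine ⟨q, hq, lt_of_le_of_lt ?_ hq2⟩
    have : (0 : ℝ) < D := by exact_mod_cast hD0
    nlinarith [not_lt.mp hR0]
  by_contra hcon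
  rw [not_eventually] at hcon
  set S : Set ℕ := {D | 0 < D ∧ ∃ P : Polynomial ℂ, P.Monic ∧ P.natDegree = 2 * D ∧
      (∀ k : ℕ, P.eval (k : ℂ) = (N D D k : ℂ)) ∧ ∀ q : ℂ, P.eval q = 0 → ‖q‖ ≤ R * D} with hSdef
  have hS : ∃ᶠ n in atTop, n ∈ S := by
    refine (hcon.and_eventually (eventually_gt_atTop 0)).mono ?_
    rintro n ⟨hn, hn0⟩
    push Not at hn
    obtain ⟨P, hP, hdeg, hev, hq⟩ := hn
    exact ⟨hn0, P, hP, hdeg, hev, hq⟩
  obtain ⟨z0, hz0⟩ : ∃ z0 : ℕ, 4 ≤ z0 ∧ R < z0 := by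
    obtain ⟨m, hm⟩ := exists_nat_gt R
    exact ⟨max 4 m, le_max_left _ _, lt_of_lt_of_le hm (by exact_mod_cast le_max_right 4 m)⟩
  have hz0' : ∀ z : ℕ, z0 ≤ z → R < z := fun z hz =>
    lt_of_lt_of_le hz0.2 (by exact_mod_cast hz)
  have hX : ∀ z : ℕ, ∃ x : ℝ, z0 ≤ z →
      0 < x ∧ x ≤ 2 / z ∧ (z : ℝ) * x = 2 - Real.exp (-x) := by
    intro z
    by_cases hz : z0 ≤ z
    · obtain ⟨x, hx⟩ := exists_x z (by omega)
      exact ⟨x, fun _ => hx⟩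
    · exact ⟨0, fun h => absurd h hz⟩
  choose X hX using hX
  obtain ⟨Φ, hΦ1, hΦ2⟩ := exists_Phi R hR0 S hS
    (fun n z => Real.log ((N n n (z * n) : ℝ) / ((z : ℝ) * n) ^ (2 * n)) / n)
    (fun z => L z (X z)) z0 hz0'
    (fun z hz => lim z (X z) (hz0.1.trans hz) (hX z hz).1 (hX z hz).2.2)
    (by
      rintro n ⟨hn0, P, hP, hdeg, hev, hq⟩
      obtain ⟨r, hr1, hr2⟩ := log_series P hP n hn0 hdeg R hR0 hq
      refine ⟨r, hr1, fun z hz => ?_⟩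
      have := hr2 z (hz0' z hz)
      have e : P.eval (((z : ℝ) * n : ℝ) : ℂ) = (N n n (z * n) : ℂ) := by
        rw [← hev (z * n)]
        push_cast
        rfl
      rw [e] at this
      rw [Complex.norm_natCast] at this
      exact this)
  have h4 := freq Φ z0 X hX hΦ2
  have hRe : Real.exp a < 1 / R := by
    rw [lt_div_iff₀ hR0]
    calc Real.exp a * R < Real.exp a * Real.exp (-a) :=
          mul_lt_mul_of_pos_left hR (Real.exp_pos a)
      _ = 1 := by rw [← Real.exp_add]; simp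
  have hx0 : (a + b * Complex.I : ℂ) ≠ 0 := by
    intro h
    have := congrArg Complex.im h
    simp at this
    exact hb.ne' this
  have hn : ∀ t ∈ Set.Icc (0 : ℝ) 1, ‖u ((t : ℂ) * (a + b * Complex.I))‖ < 1 / R := fun t ht =>
    lt_of_le_of_lt (norm_u a b hb hb2 ha ha0 h1 h2 h3 t ht) hRe
  have hev := contA (a + b * Complex.I) R hR0 Φ hΦ1 (slit a b hb hb2) hn hx0 h4
  have h1' : (1 : ℝ) ∈ Set.Icc (0 : ℝ) 1 := ⟨zero_le_one, le_refl 1⟩
  have hs := slit a b hb hb2 1 h1'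
  have hu := hn 1 h1'
  rw [Complex.ofReal_one, one_mul] at hs hu
  refine contB (a + b * Complex.I) R hR0 Φ hΦ1 hs hu hx0 ?_ hev
  rw [crit_eq a b h1 h2, mul_assoc, ← Complex.exp_add]
  simp

end Pool.Agent.Lib.MP_d38209_co.LB
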