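import Pool.Agent.Lib.MP_d38209_co.LB.Defs

/-!
# The exponents of the two Chernoff bounds

Put `φ(l) = z log ((exp(l x) + exp x - 1) / (2 exp x - 1))`.  Then `φ(1) = 0` and
`φ'(1) = z x exp x / (2 exp x - 1) = z x / (2 - exp(-x)) = 1`.  The function
`φ(l) - (1 + δ) log l` vanishes at `1` with derivative `-δ < 0`, so it is negative for some
`l > 1`; the function `φ(l) - (1 - δ) log l` vanishes at `1` with derivative `δ > 0`, so it is
negative for some `l ∈ (0,1)`.
(Use `HasDerivAt` at `1` and `hasDerivAt_iff_tendsto_slope`, or `HasDerivAt.eventually...`;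
`eventually_nhdsWithin`.)
-/

namespace Pool.Agent.Lib.MP_d38209_co.LB

open Filter Topology

private lemma cher_right (f : ℝ → ℝ) (c : ℝ) (hf : HasDerivAt f c 1) (h0 : f 1 = 0) (hc : c < 0) :
    ∃ l : ℝ, 1 < l ∧ f l < 0 := by
  have h := hasDerivAt_iff_tendsto_slope.mp hf
  have h1 : Tendsto (slope f 1) (𝓝[>] 1) (𝓝 c) :=
    h.mono_left (nhdsWithin_mono _ (fun y (hy : 1 < y) => (ne_of_gt hy : y ≠ 1)))
  have h2 : ∀ᶠ y in 𝓝[>] (1 : ℝ), slope f 1 y < 0 := h1.eventually (gt_mem_nhds hc)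
  have h3 : ∀ᶠ y in 𝓝[>] (1 : ℝ), y ∈ Set.Ioi (1 : ℝ) := self_mem_nhdsWithin
  obtain ⟨y, hy1, hy2⟩ := (h2.and h3).exists
  have hy3 : 1 < y := hy2
  refine ⟨y, hy3, ?_⟩
  rw [slope_def_field, h0, sub_zero] at hy1
  by_contra hcon
  push Not at hcon
  have : 0 ≤ f y / (y - 1) := div_nonneg hcon (by linarith)
  linarith

private lemma cher_left (f : ℝ → ℝ) (c : ℝ) (hf : HasDerivAt f c 1) (h0 : f 1 = 0) (hc : 0 < c) :
    ∃ l : ℝ, 0 < l ∧ l < 1 ∧ f l < 0 := by
  have h := hasDerivAt_iff_tendsto_slope.mp hf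
  have h1 : Tendsto (slope f 1) (𝓝[<] 1) (𝓝 c) :=
    h.mono_left (nhdsWithin_mono _ (fun y (hy : y < 1) => (ne_of_lt hy : y ≠ 1)))
  have h2 : ∀ᶠ y in 𝓝[<] (1 : ℝ), 0 < slope f 1 y := h1.eventually (lt_mem_nhds hc)
  have h3 : ∀ᶠ y in 𝓝[<] (1 : ℝ), y ∈ Set.Ioo (0 : ℝ) 1 :=
    Ioo_mem_nhdsLT (by norm_num)
  obtain ⟨y, hy1, hy2⟩ := (h2.and h3).exists
  refine ⟨y, hy2.1, hy2.2, ?_⟩
  rw [slope_def_field, h0, sub_zero] at hy1
  by_contra hcon
  push Not at hcon
  have : f y / (y - 1) ≤ 0 := div_nonpos_of_nonneg_of_nonpos hcon (by linarith [hy2.2])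
  linarith

theorem cher (z x δ : ℝ) (hx : 0 < x) (hzx : z * x = 2 - Real.exp (-x)) (hδ : 0 < δ)
    (hδ1 : δ < 1) :
    (∃ l : ℝ, 1 < l ∧ z * Real.log ((Real.exp (l * x) + Real.exp x - 1) / (2 * Real.exp x - 1)) <
      (1 + δ) * Real.log l) ∧
    (∃ l : ℝ, 0 < l ∧ l < 1 ∧
      z * Real.log ((Real.exp (l * x) + Real.exp x - 1) / (2 * Real.exp x - 1)) <
      (1 - δ) * Real.log l) := by
  have hE : 1 < Real.exp x := Real.one_lt_exp_iff.mpr hx
  have hM : 0 < 2 * Real.exp x - 1 := by linarith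
  have hval : (Real.exp (1 * x) + Real.exp x - 1) / (2 * Real.exp x - 1) = 1 := by
    rw [one_mul]
    rw [show Real.exp x + Real.exp x - 1 = 2 * Real.exp x - 1 by ring]
    exact div_self (ne_of_gt hM)
  have hphi : HasDerivAt (fun l : ℝ => z * Real.log ((Real.exp (l * x) + Real.exp x - 1) /
      (2 * Real.exp x - 1))) 1 1 := by
    have h1 : HasDerivAt (fun l : ℝ => l * x) x 1 := by
      simpa using (hasDerivAt_id (1 : ℝ)).mul_const x
    have h2 : HasDerivAt (fun l : ℝ => Real.exp (l * x)) (Real.exp (1 * x) * x) 1 := h1.exp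
    have h3 : HasDerivAt (fun l : ℝ => (Real.exp (l * x) + Real.exp x - 1) /
        (2 * Real.exp x - 1)) (Real.exp (1 * x) * x / (2 * Real.exp x - 1)) 1 :=
      ((h2.add_const (Real.exp x)).sub_const 1).div_const _
    have h4 := (h3.log (by rw [hval]; norm_num)).const_mul z
    rw [hval] at h4
    have hz : z * (Real.exp (1 * x) * x / (2 * Real.exp x - 1) / 1) = 1 := by
      rw [one_mul, div_one]
      have h5 : z * (Real.exp x * x / (2 * Real.exp x - 1)) =
          (z * x) * Real.exp x / (2 * Real.exp x - 1) := by ring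
      rw [h5, hzx]
      have h6 : (2 - Real.exp (-x)) * Real.exp x = 2 * Real.exp x - 1 := by
        rw [sub_mul, ← Real.exp_add]
        simp
      rw [h6]
      exact div_self (ne_of_gt hM)
    rw [hz] at h4
    exact h4
  have hlog : HasDerivAt Real.log 1 1 := by
    simpa using Real.hasDerivAt_log (one_ne_zero : (1 : ℝ) ≠ 0)
  constructor
  · obtain ⟨l, hl1, hl2⟩ := cher_right
      (fun l : ℝ => z * Real.log ((Real.exp (l * x) + Real.exp x - 1) /
        (2 * Real.exp x - 1)) - (1 + δ) * Real.log l) (1 - (1 + δ) * 1)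
      (hphi.sub (hlog.const_mul (1 + δ))) (by simp only [hval, Real.log_one]; ring) (by linarith)
    exact ⟨l, hl1, by linarith⟩
  · obtain ⟨l, hl0, hl1, hl2⟩ := cher_left
      (fun l : ℝ => z * Real.log ((Real.exp (l * x) + Real.exp x - 1) /
        (2 * Real.exp x - 1)) - (1 - δ) * Real.log l) (1 - (1 - δ) * 1)
      (hphi.sub (hlog.const_mul (1 - δ))) (by simp only [hval, Real.log_one]; ring) (by linarith)
    exact ⟨l, hl0, hl1, by linarith⟩

end Pool.Agent.Lib.MP_d38209_co.LB
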