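import Pool.Agent.Lib.MP_d38209_co.LB.Tail
import Pool.Agent.Lib.MP_d38209_co.LB.Cher

/-!
# One large term close to the diagonal

Let `q = z n`, `M = (2 exp x - 1)^q = ∑ W q x x p` (`gen`).  By `cher`, `tail_hi` with
`a = (1+δ) n`, `tail_lo` with `a = (1-δ) n`, the sum over `p.1 > (1+δ) n` is at most
`M exp(-c n)` with `c = (1+δ) log l - z log(...) > 0`, the sum over `p.1 < (1-δ) n` likewise, and by
`W_symm` the same holds for `p.2`.  For large `n` the four tails together are `≤ M / 2`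
(`exp (-c n) → 0`), so the finite sum over the box `|p.1 - n| ≤ δ n`, `|p.2 - n| ≤ δ n` is
`≥ M / 2`.  The box has at most `(2 δ n + 1)^2 ≤ (3 n)^2` points (`n ≥ 1`), so some point of it has
`W ≥ M / (2 (3 n)^2)`.
(For `δ < 1` every point of the box has coordinates in `Finset.Icc ⌈(1-δ)n⌉₊ ⌊(1+δ)n⌋₊`.)
-/

namespace Pool.Agent.Lib.MP_d38209_co.LB

open Finset Filter

private lemma box_exp (z n : ℕ) (A M l b : ℝ) (hA : 0 < A) (hM : 0 < M) (hl : 0 < l) :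
    l ^ (-(b * n)) * A ^ (z * n) =
      M ^ (z * n) * Real.exp (-(b * Real.log l - z * Real.log (A / M))) ^ n := by
  have h1 : A ^ (z * n) = M ^ (z * n) * Real.exp (((z * n : ℕ) : ℝ) * Real.log (A / M)) := by
    rw [Real.exp_nat_mul, Real.exp_log (div_pos hA hM), div_pow, mul_div_cancel₀]
    exact pow_ne_zero _ (ne_of_gt hM)
  rw [h1, Real.rpow_def_of_pos hl, ← Real.exp_nat_mul, mul_comm (M ^ (z * n)), ← mul_assoc,
    ← Real.exp_add, mul_comm (M ^ (z * n))]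
  congr 2
  push_cast
  ring

private lemma box_swap (q : ℕ) (x : ℝ) (P : ℝ → Prop) [DecidablePred P] :
    ∑' p : ℕ × ℕ, (if P (p.2 : ℝ) then W q x x p else 0) =
      ∑' p : ℕ × ℕ, (if P (p.1 : ℝ) then W q x x p else 0) := by
  rw [← (Equiv.prodComm ℕ ℕ).tsum_eq (fun p : ℕ × ℕ => if P (p.1 : ℝ) then W q x x p else 0)]
  refine tsum_congr fun p => ?_
  obtain ⟨i, j⟩ := p
  simp only [Equiv.prodComm_apply, Prod.swap_prod_mk]
  rw [W_symm q x i j]

private lemma box_card (n : ℕ) (δ : ℝ) (hδ : 0 < δ) (hδ1 : δ < 1) (hn : 1 ≤ n) :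
    (((Icc ⌈(1 - δ) * (n : ℝ)⌉₊ ⌊(1 + δ) * (n : ℝ)⌋₊).card : ℕ) : ℝ) ≤ 3 * n := by
  have hn' : (1 : ℝ) ≤ n := by exact_mod_cast hn
  rw [Nat.card_Icc]
  rcases le_total ⌈(1 - δ) * (n : ℝ)⌉₊ (⌊(1 + δ) * (n : ℝ)⌋₊ + 1) with h | h
  · rw [Nat.cast_sub h]
    push_cast
    have h1 : ((⌊(1 + δ) * (n : ℝ)⌋₊ : ℕ) : ℝ) ≤ (1 + δ) * n :=
      Nat.floor_le (by positivity)
    have h2 : (1 - δ) * (n : ℝ) ≤ ((⌈(1 - δ) * (n : ℝ)⌉₊ : ℕ) : ℝ) := Nat.le_ceil _
    have h3 : δ * n ≤ 1 * n := mul_le_mul_of_nonneg_right hδ1.le (by linarith)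
    nlinarith
  · rw [Nat.sub_eq_zero_of_le h]
    simp only [Nat.cast_zero]
    positivity

private lemma box_tails (z n : ℕ) (x δ : ℝ) (hx : 0 < x) (l l' : ℝ) (hl : 1 < l) (hl'0 : 0 < l')
    (hl' : l' < 1) :
    (2 * Real.exp x - 1) ^ (z * n) ≤
      2 * ((2 * Real.exp x - 1) ^ (z * n) * Real.exp (-((1 + δ) * Real.log l - z *
        Real.log ((Real.exp (l * x) + Real.exp x - 1) / (2 * Real.exp x - 1)))) ^ n) +
      2 * ((2 * Real.exp x - 1) ^ (z * n) * Real.exp (-((1 - δ) * Real.log l' - z *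
        Real.log ((Real.exp (l' * x) + Real.exp x - 1) / (2 * Real.exp x - 1)))) ^ n) +
      ∑ p ∈ Icc ⌈(1 - δ) * (n : ℝ)⌉₊ ⌊(1 + δ) * (n : ℝ)⌋₊ ×ˢ
        Icc ⌈(1 - δ) * (n : ℝ)⌉₊ ⌊(1 + δ) * (n : ℝ)⌋₊, W (z * n) x x p := by
  have hE : 1 < Real.exp x := Real.one_lt_exp_iff.mpr hx
  have hM : 0 < 2 * Real.exp x - 1 := by linarith
  have hA : ∀ t : ℝ, 0 < Real.exp (t * x) + Real.exp x - 1 := fun t => by
    have := Real.exp_pos (t * x)
    linarith
  set q := z * n with hq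
  set B : Finset (ℕ × ℕ) := Icc ⌈(1 - δ) * (n : ℝ)⌉₊ ⌊(1 + δ) * (n : ℝ)⌋₊ ×ˢ
        Icc ⌈(1 - δ) * (n : ℝ)⌉₊ ⌊(1 + δ) * (n : ℝ)⌋₊ with hB
  have hg := gen q x x hx.le hx.le
  have hgv : (Real.exp x + Real.exp x - 1) ^ q = (2 * Real.exp x - 1) ^ q := by
    congr 1
    ring
  rw [hgv] at hg
  have hnn : ∀ p, 0 ≤ W q x x p := fun p => W_nonneg q x x hx.le hx.le p
  have hsum : ∀ (P : ℕ × ℕ → Prop) [DecidablePred P],
      Summable (fun p : ℕ × ℕ => if P p then W q x x p else 0) := by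
    intro P _
    refine Summable.of_nonneg_of_le (fun p => ?_) (fun p => ?_) hg.summable
    · split_ifs
      · exact hnn p
      · exact le_refl _
    · split_ifs
      · exact le_refl _
      · exact hnn p
  have e1 := tail_hi q x l ((1 + δ) * n) hx hl
  have e2 := tail_lo q x l' ((1 - δ) * n) hx hl'0 hl'
  have e3 := box_swap q x (fun t => (1 + δ) * n < t)
  have e4 := box_swap q x (fun t => t < (1 - δ) * n)
  rw [hq, box_exp z n _ (2 * Real.exp x - 1) l (1 + δ) (hA l) hM (by linarith), ← hq] at e1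
  rw [hq, box_exp z n _ (2 * Real.exp x - 1) l' (1 - δ) (hA l') hM hl'0, ← hq] at e2
  have s1 := hsum (fun p => (1 + δ) * n < (p.1 : ℝ))
  have s2 := hsum (fun p => (p.1 : ℝ) < (1 - δ) * n)
  have s3 := hsum (fun p => (1 + δ) * n < (p.2 : ℝ))
  have s4 := hsum (fun p => (p.2 : ℝ) < (1 - δ) * n)
  have s5 := hsum (fun p => p ∈ B)
  have hB' : ∑' p : ℕ × ℕ, (if p ∈ B then W q x x p else 0) = ∑ p ∈ B, W q x x p := by
    rw [tsum_eq_sum (s := B) (fun p hp => by simp only [hp, if_false])]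
    exact sum_congr rfl fun p hp => by simp only [hp, if_true]
  have hall : ∑' p, W q x x p ≤
      ∑' p : ℕ × ℕ, ((if (1 + δ) * n < (p.1 : ℝ) then W q x x p else 0) +
        (if (p.1 : ℝ) < (1 - δ) * n then W q x x p else 0) +
        (if (1 + δ) * n < (p.2 : ℝ) then W q x x p else 0) +
        (if (p.2 : ℝ) < (1 - δ) * n then W q x x p else 0) +
        (if p ∈ B then W q x x p else 0)) := by
    refine Summable.tsum_le_tsum (fun p => ?_) hg.summable ((((s1.add s2).add s3).add s4).add s5)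
    have hp := hnn p
    by_cases c1 : (1 + δ) * n < (p.1 : ℝ)
    · rw [if_pos c1]
      have a2 : 0 ≤ (if (p.1 : ℝ) < (1 - δ) * n then W q x x p else 0) := by
        split_ifs <;> simp [hp]
      have a3 : 0 ≤ (if (1 + δ) * n < (p.2 : ℝ) then W q x x p else 0) := by
        split_ifs <;> simp [hp]
      have a4 : 0 ≤ (if (p.2 : ℝ) < (1 - δ) * n then W q x x p else 0) := by
        split_ifs <;> simp [hp]
      have a5 : 0 ≤ (if p ∈ B then W q x x p else 0) := by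
        split_ifs <;> simp [hp]
      linarith
    by_cases c2 : (p.1 : ℝ) < (1 - δ) * n
    · rw [if_neg c1, if_pos c2]
      have a3 : 0 ≤ (if (1 + δ) * n < (p.2 : ℝ) then W q x x p else 0) := by
        split_ifs <;> simp [hp]
      have a4 : 0 ≤ (if (p.2 : ℝ) < (1 - δ) * n then W q x x p else 0) := by
        split_ifs <;> simp [hp]
      have a5 : 0 ≤ (if p ∈ B then W q x x p else 0) := by
        split_ifs <;> simp [hp]
      linarith
    by_cases c3 : (1 + δ) * n < (p.2 : ℝ)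
    · rw [if_neg c1, if_neg c2, if_pos c3]
      have a4 : 0 ≤ (if (p.2 : ℝ) < (1 - δ) * n then W q x x p else 0) := by
        split_ifs <;> simp [hp]
      have a5 : 0 ≤ (if p ∈ B then W q x x p else 0) := by
        split_ifs <;> simp [hp]
      linarith
    by_cases c4 : (p.2 : ℝ) < (1 - δ) * n
    · rw [if_neg c1, if_neg c2, if_neg c3, if_pos c4]
      have a5 : 0 ≤ (if p ∈ B then W q x x p else 0) := by
        split_ifs <;> simp [hp]
      linarith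
    · have hmem : p ∈ B := by
        rw [hB, mem_product, mem_Icc, mem_Icc]
        push Not at c1 c2 c3 c4
        exact ⟨⟨Nat.ceil_le.mpr c2, Nat.le_floor c1⟩, ⟨Nat.ceil_le.mpr c4, Nat.le_floor c3⟩⟩
      rw [if_neg c1, if_neg c2, if_neg c3, if_neg c4, if_pos hmem]
      linarith
  have hsplit := ((((s1.hasSum.add s2.hasSum).add s3.hasSum).add s4.hasSum).add s5.hasSum).tsum_eq
  have h1 := hg.tsum_eq
  have hall2 := hall
  rw [h1] at hall2
  have hall3 := hall2.trans (le_of_eq hsplit)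
  rw [hB', e3, e4] at hall3
  linarith

theorem box (z : ℕ) (x δ : ℝ) (hx : 0 < x) (hzx : (z : ℝ) * x = 2 - Real.exp (-x))
    (hδ : 0 < δ) (hδ1 : δ < 1) :
    ∀ᶠ n : ℕ in atTop, ∃ i j : ℕ, |(i : ℝ) - n| ≤ δ * n ∧ |(j : ℝ) - n| ≤ δ * n ∧
      (2 * Real.exp x - 1) ^ (z * n) ≤ 2 * (3 * (n : ℝ)) ^ 2 * W (z * n) x x (i, j) := by
  have hE : 1 < Real.exp x := Real.one_lt_exp_iff.mpr hx
  have hM : 0 < 2 * Real.exp x - 1 := by linarith
  obtain ⟨⟨l, hl, hl2⟩, ⟨l', hl'0, hl', hl'2⟩⟩ := cher z x δ hx hzx hδ hδ1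
  set r : ℝ := Real.exp (-((1 + δ) * Real.log l - z *
        Real.log ((Real.exp (l * x) + Real.exp x - 1) / (2 * Real.exp x - 1)))) with hr
  set r' : ℝ := Real.exp (-((1 - δ) * Real.log l' - z *
        Real.log ((Real.exp (l' * x) + Real.exp x - 1) / (2 * Real.exp x - 1)))) with hr'
  have hr1 : r < 1 := by
    rw [hr, Real.exp_lt_one_iff]
    linarith
  have hr'1 : r' < 1 := by
    rw [hr', Real.exp_lt_one_iff]
    linarith
  have t1 : ∀ᶠ n : ℕ in atTop, r ^ n < 1 / 8 :=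
    (tendsto_pow_atTop_nhds_zero_of_lt_one (Real.exp_pos _).le hr1).eventually
      (gt_mem_nhds (by norm_num))
  have t2 : ∀ᶠ n : ℕ in atTop, r' ^ n < 1 / 8 :=
    (tendsto_pow_atTop_nhds_zero_of_lt_one (Real.exp_pos _).le hr'1).eventually
      (gt_mem_nhds (by norm_num))
  filter_upwards [t1, t2, eventually_ge_atTop 1] with n h1 h2 hn
  have hn' : (1 : ℝ) ≤ n := by exact_mod_cast hn
  have hMn : 0 < (2 * Real.exp x - 1) ^ (z * n) := pow_pos hM _
  have key := box_tails z n x δ hx l l' hl hl'0 hl'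
  rw [← hr, ← hr'] at key
  set I : Finset ℕ := Icc ⌈(1 - δ) * (n : ℝ)⌉₊ ⌊(1 + δ) * (n : ℝ)⌋₊ with hI
  have b1 : (2 * Real.exp x - 1) ^ (z * n) * r ^ n ≤ (2 * Real.exp x - 1) ^ (z * n) * (1 / 8) :=
    mul_le_mul_of_nonneg_left h1.le hMn.le
  have b2 : (2 * Real.exp x - 1) ^ (z * n) * r' ^ n ≤ (2 * Real.exp x - 1) ^ (z * n) * (1 / 8) :=
    mul_le_mul_of_nonneg_left h2.le hMn.le
  have hhalf : (2 * Real.exp x - 1) ^ (z * n) / 2 ≤ ∑ p ∈ I ×ˢ I, W (z * n) x x p := by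
    linarith
  have hne : (I ×ˢ I).Nonempty := by
    by_contra hcon
    rw [not_nonempty_iff_eq_empty] at hcon
    rw [hcon, sum_empty] at hhalf
    linarith
  have hcard : (((I ×ˢ I).card : ℕ) : ℝ) ≤ (3 * (n : ℝ)) ^ 2 := by
    rw [card_product, Nat.cast_mul, sq]
    have := box_card n δ hδ hδ1 hn
    rw [← hI] at this
    exact mul_le_mul this this (by positivity) (by positivity)
  have hex : ∃ p ∈ I ×ˢ I, (2 * Real.exp x - 1) ^ (z * n) ≤
      2 * (3 * (n : ℝ)) ^ 2 * W (z * n) x x p := by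
    by_contra hcon
    push Not at hcon
    have hlt := sum_lt_sum_of_nonempty hne hcon
    rw [← mul_sum, sum_const, nsmul_eq_mul] at hlt
    have h3 : (((I ×ˢ I).card : ℕ) : ℝ) * (2 * Real.exp x - 1) ^ (z * n) ≤
        (3 * (n : ℝ)) ^ 2 * (2 * Real.exp x - 1) ^ (z * n) :=
      mul_le_mul_of_nonneg_right hcard hMn.le
    have h4 : 2 * (3 * (n : ℝ)) ^ 2 * ((2 * Real.exp x - 1) ^ (z * n) / 2) ≤
        2 * (3 * (n : ℝ)) ^ 2 * ∑ p ∈ I ×ˢ I, W (z * n) x x p :=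
      mul_le_mul_of_nonneg_left hhalf (by positivity)
    nlinarith
  obtain ⟨⟨i, j⟩, hp, hpW⟩ := hex
  rw [mem_product, hI, mem_Icc, mem_Icc] at hp
  have hfl : ∀ k : ℕ, ⌈(1 - δ) * (n : ℝ)⌉₊ ≤ k → k ≤ ⌊(1 + δ) * (n : ℝ)⌋₊ →
      |(k : ℝ) - n| ≤ δ * n := by
    intro k hk1 hk2
    have a1 : (1 - δ) * (n : ℝ) ≤ k := Nat.ceil_le.mp hk1
    have a2 : (k : ℝ) ≤ (1 + δ) * n := (Nat.le_floor_iff (by positivity)).mp hk2
    rw [abs_le]
    constructor <;> linarith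
  exact ⟨i, j, hfl i hp.1.1 hp.1.2, hfl j hp.2.1 hp.2.2, hpW⟩

end Pool.Agent.Lib.MP_d38209_co.LB
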