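import Pool.Agent.Lib.MP_d38209_co.LB.Defs

/-!
# Elementary inequalities for `N`

`N (i+1) j q = ∑_g (q - |image g|) ^ (i+1)` and `q - j ≤ q - |image g| ≤ q` (truncated
subtraction is fine: `|image g| ≤ j` by `card_image_le`).  Positivity for `q ≥ 2`: the constant map
`g` has an image of size at most one.
-/

namespace Pool.Agent.Lib.MP_d38209_co.LB

open Finset

theorem N_succ_le (i j q : ℕ) : N (i + 1) j q ≤ q * N i j q := by
  unfold N
  rw [mul_sum]
  refine sum_le_sum fun g _ => ?_
  rw [pow_succ, mul_comm]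
  exact Nat.mul_le_mul_right _ (Nat.sub_le _ _)

theorem le_N_succ (i j q : ℕ) : (q - j) * N i j q ≤ N (i + 1) j q := by
  unfold N
  rw [mul_sum]
  refine sum_le_sum fun g _ => ?_
  rw [pow_succ, mul_comm]
  refine Nat.mul_le_mul_left _ ?_
  have : (univ.image g).card ≤ j := by
    simpa using (card_image_le (s := univ) (f := g))
  omega

theorem N_pos (i j q : ℕ) (hq : 2 ≤ q) : 0 < N i j q := by
  unfold N
  have hg : 0 < (q - (univ.image (fun _ : Fin j => (⟨0, by omega⟩ : Fin q))).card) ^ i := by
    apply Nat.pow_pos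
    have : (univ.image (fun _ : Fin j => (⟨0, by omega⟩ : Fin q))).card ≤ 1 := by
      rw [card_le_one]
      intro a ha b hb
      simp only [mem_image, mem_univ, true_and] at ha hb
      obtain ⟨_, rfl⟩ := ha
      obtain ⟨_, rfl⟩ := hb
      rfl
    omega
  exact lt_of_lt_of_le hg (single_le_sum
    (f := fun g : Fin j → Fin q => (q - (univ.image g).card) ^ i) (fun _ _ => Nat.zero_le _)
    (mem_univ _))

end Pool.Agent.Lib.MP_d38209_co.LB
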