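import Pool.Agent.Lib.MP_d38209_co.LB.Count
import Pool.Agent.Lib.MP_d38209_co.LB.Step

/-!
# Comparison of `N i j q` with `N n n q`

Let `q = z n ≥ 4 n`.  If `i ≥ n` then `N(i,j,q) / q^i ≤ N(n,j,q) / q^n` (`N_succ_le`, induction);
if `i ≤ n` then `N(n,j,q) / q^n ≥ (1 - j/q)^(n-i) N(i,j,q) / q^i ≥ (1/2)^(δ n) N(i,j,q) / q^i`
(`le_N_succ`, `j ≤ 2 n ≤ q / 2`, `n - i ≤ δ n`).  Then the same for the second index (`N_symm`).
The power `(1/2) ^ (2 * δ * n)` is a real power.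
-/

namespace Pool.Agent.Lib.MP_d38209_co.LB

open Finset

private theorem ratio_succ_le (i j q : ℕ) (hq : 0 < q) :
    (N (i + 1) j q : ℝ) / (q : ℝ) ^ (i + 1 + j) ≤ (N i j q : ℝ) / (q : ℝ) ^ (i + j) := by
  have h : (N (i + 1) j q : ℝ) ≤ q * N i j q := by exact_mod_cast N_succ_le i j q
  have hq' : (0 : ℝ) < q := by exact_mod_cast hq
  rw [div_le_div_iff₀ (by positivity) (by positivity)]
  calc (N (i + 1) j q : ℝ) * (q : ℝ) ^ (i + j) ≤ (q * N i j q) * (q : ℝ) ^ (i + j) :=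
        mul_le_mul_of_nonneg_right h (by positivity)
    _ = (N i j q : ℝ) * (q : ℝ) ^ (i + 1 + j) := by ring

private theorem half_ratio_le (i j q : ℕ) (hq : 0 < q) (hj : 2 * j ≤ q) :
    (N i j q : ℝ) / (q : ℝ) ^ (i + j) * (1 / 2) ≤ (N (i + 1) j q : ℝ) / (q : ℝ) ^ (i + 1 + j) := by
  have h : ((q - j : ℕ) : ℝ) * N i j q ≤ N (i + 1) j q := by exact_mod_cast le_N_succ i j q
  have hq' : (0 : ℝ) < q := by exact_mod_cast hq
  have h1 : (q : ℝ) / 2 ≤ ((q - j : ℕ) : ℝ) := by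
    have : q ≤ 2 * (q - j) := by omega
    have : (q : ℝ) ≤ 2 * ((q - j : ℕ) : ℝ) := by exact_mod_cast this
    linarith
  rw [le_div_iff₀ (by positivity), div_mul_eq_mul_div, div_mul_eq_mul_div,
    div_le_iff₀ (by positivity)]
  have h2 : (q : ℝ) / 2 * N i j q ≤ N (i + 1) j q :=
    (mul_le_mul_of_nonneg_right h1 (by positivity)).trans h
  calc (N i j q : ℝ) * (1 / 2) * (q : ℝ) ^ (i + 1 + j)
      = ((q : ℝ) / 2 * N i j q) * (q : ℝ) ^ (i + j) := by ring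
    _ ≤ (N (i + 1) j q : ℝ) * (q : ℝ) ^ (i + j) := mul_le_mul_of_nonneg_right h2 (by positivity)

private theorem ratio_add_le (i j q k : ℕ) (hq : 0 < q) :
    (N (i + k) j q : ℝ) / (q : ℝ) ^ (i + k + j) ≤ (N i j q : ℝ) / (q : ℝ) ^ (i + j) := by
  induction k with
  | zero => simp
  | succ k ih => exact (ratio_succ_le (i + k) j q hq).trans ih

private theorem half_ratio_add_le (i j q k : ℕ) (hq : 0 < q) (hj : 2 * j ≤ q) :
    (N i j q : ℝ) / (q : ℝ) ^ (i + j) * (1 / 2) ^ k ≤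
      (N (i + k) j q : ℝ) / (q : ℝ) ^ (i + k + j) := by
  induction k with
  | zero => simp
  | succ k ih =>
    calc (N i j q : ℝ) / (q : ℝ) ^ (i + j) * (1 / 2) ^ (k + 1)
        = ((N i j q : ℝ) / (q : ℝ) ^ (i + j) * (1 / 2) ^ k) * (1 / 2) := by ring
      _ ≤ (N (i + k) j q : ℝ) / (q : ℝ) ^ (i + k + j) * (1 / 2) :=
          mul_le_mul_of_nonneg_right ih (by norm_num)
      _ ≤ _ := half_ratio_le (i + k) j q hq hj

private theorem comp_one (q n i j : ℕ) (δ : ℝ) (hq : 0 < q) (hδ : 0 < δ)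
    (hj : 2 * j ≤ q) (hi : |(i : ℝ) - n| ≤ δ * n) :
    (N i j q : ℝ) / (q : ℝ) ^ (i + j) * (1 / 2 : ℝ) ^ (δ * n) ≤
      (N n j q : ℝ) / (q : ℝ) ^ (n + j) := by
  have hn0 : (0 : ℝ) ≤ n := Nat.cast_nonneg n
  have hr : (0 : ℝ) ≤ (N i j q : ℝ) / (q : ℝ) ^ (i + j) := by positivity
  rcases le_total n i with h | h
  · obtain ⟨k, rfl⟩ := Nat.exists_eq_add_of_le h
    have h1 : (1 / 2 : ℝ) ^ (δ * n) ≤ 1 :=
      Real.rpow_le_one (by norm_num) (by norm_num) (by positivity)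
    exact (mul_le_of_le_one_right hr h1).trans (ratio_add_le n j q k hq)
  · obtain ⟨k, rfl⟩ := Nat.exists_eq_add_of_le h
    have hk : (k : ℝ) ≤ δ * ((i + k : ℕ) : ℝ) := by
      have := (abs_le.1 hi).1
      push_cast at this ⊢
      linarith
    have h1 : (1 / 2 : ℝ) ^ (δ * ((i + k : ℕ) : ℝ)) ≤ (1 / 2 : ℝ) ^ k := by
      rw [← Real.rpow_natCast]
      exact Real.rpow_le_rpow_of_exponent_ge (by norm_num) (by norm_num) hk
    exact (mul_le_mul_of_nonneg_left h1 hr).trans (half_ratio_add_le i j q k hq hj)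

theorem comp (z n i j : ℕ) (δ : ℝ) (hz : 4 ≤ z) (hn : 0 < n) (hδ : 0 < δ) (hδ1 : δ < 1)
    (hi : |(i : ℝ) - n| ≤ δ * n) (hj : |(j : ℝ) - n| ≤ δ * n) :
    (N i j (z * n) : ℝ) / ((z : ℝ) * n) ^ (i + j) * (1 / 2 : ℝ) ^ (2 * δ * n) ≤
      (N n n (z * n) : ℝ) / ((z : ℝ) * n) ^ (2 * n) := by
  have hn' : (0 : ℝ) < n := by exact_mod_cast hn
  have hq : 0 < z * n := Nat.mul_pos (by omega) hn
  have h4 : 4 * n ≤ z * n := Nat.mul_le_mul_right n hz
  have hjn : j ≤ 2 * n := by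
    have h1 := (abs_le.1 hj).2
    have h2 : δ * n ≤ n := by nlinarith
    have h3 : (j : ℝ) ≤ 2 * n := by linarith
    exact_mod_cast h3
  have h1 := comp_one (z * n) n i j δ hq hδ (by omega) hi
  have h2 := comp_one (z * n) n j n δ hq hδ (by omega) hj
  rw [N_symm j n] at h2
  have e : (1 / 2 : ℝ) ^ (2 * δ * n) = (1 / 2 : ℝ) ^ (δ * n) * (1 / 2 : ℝ) ^ (δ * n) := by
    rw [← Real.rpow_add (by norm_num)]
    congr 1
    ring
  have hc : (((z * n : ℕ) : ℝ)) = (z : ℝ) * n := by push_cast; ring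
  rw [hc] at h1 h2
  rw [e, ← mul_assoc]
  refine (mul_le_mul_of_nonneg_right h1 (by positivity)).trans ?_
  rw [add_comm n j, two_mul n]
  exact h2

end Pool.Agent.Lib.MP_d38209_co.LB
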