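import Pool.Agent.Lib.MP_d38209_co.LB.Defs

/-!
# `N i j q` counts the proper colourings of `K_{i,j}`

A map `σ : Fin i ⊕ Fin j → Fin q` is a pair `(f, g)`; it is proper for the complete bipartite graph
iff `f a ≠ g b` for all `a, b` (both `Adj (inl a) (inr b)` and `Adj (inr b) (inl a)`), i.e. iff `f`
takes values in the complement of the image of `g`.  For fixed `g` there are
`(q - |image g|) ^ i` such `f` (`Fintype.card_fun`, `Fintype.card_subtype`, `card_compl`).
`N_symm`: swap the two sides (`Sum.swap` / `Equiv.sumComm`) in `card_col`.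
-/

namespace Pool.Agent.Lib.MP_d38209_co.LB

open Finset

private def colEquiv (i j q : ℕ) :
    {σ : Fin i ⊕ Fin j → Fin q //
      ∀ a b, (completeBipartiteGraph (Fin i) (Fin j)).Adj a b → σ a ≠ σ b} ≃
    Σ g : Fin j → Fin q, (Fin i → {c : Fin q // c ∉ univ.image g}) where
  toFun σ := ⟨fun b => σ.1 (Sum.inr b), fun a => ⟨σ.1 (Sum.inl a), by
    simp only [mem_image, mem_univ, true_and, not_exists]
    intro b hb
    exact σ.2 (Sum.inl a) (Sum.inr b) (by simp [completeBipartiteGraph]) hb.symm⟩⟩
  invFun p := ⟨Sum.elim (fun a => (p.2 a).1) p.1, by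
    rintro (a | a) (b | b) h
    · simp [completeBipartiteGraph] at h
    · intro hab
      exact (p.2 a).2 (mem_image.2 ⟨b, mem_univ _, by simpa using hab.symm⟩)
    · intro hab
      exact (p.2 b).2 (mem_image.2 ⟨a, mem_univ _, by simpa using hab⟩)
    · simp [completeBipartiteGraph] at h⟩
  left_inv σ := by
    apply Subtype.ext
    funext a
    rcases a with a | a <;> rfl
  right_inv p := by
    rcases p with ⟨g, f⟩
    rfl

theorem card_col (i j q : ℕ) :
    Nat.card {σ : Fin i ⊕ Fin j → Fin q //
      ∀ a b, (completeBipartiteGraph (Fin i) (Fin j)).Adj a b → σ a ≠ σ b} = N i j q := by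
  rw [Nat.card_congr (colEquiv i j q), Nat.card_eq_fintype_card, Fintype.card_sigma]
  unfold N
  refine sum_congr rfl fun g _ => ?_
  rw [Fintype.card_fun, Fintype.card_fin,
    Fintype.card_of_subtype (univ.image g)ᶜ (fun x => by simp), card_compl, Fintype.card_fin]

theorem N_symm (i j q : ℕ) : N i j q = N j i q := by
  rw [← card_col, ← card_col]
  refine Nat.card_congr (Equiv.subtypeEquiv
    (Equiv.arrowCongr (Equiv.sumComm (Fin i) (Fin j)) (Equiv.refl _)) fun σ => ?_)
  constructor
  · intro h a b hab
    have := h (Sum.swap a) (Sum.swap b) (by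
      rcases a with a | a <;> rcases b with b | b <;>
        simp [completeBipartiteGraph] at hab ⊢)
    simpa [Equiv.arrowCongr] using this
  · intro h a b hab
    have := h (Sum.swap a) (Sum.swap b) (by
      rcases a with a | a <;> rcases b with b | b <;>
        simp [completeBipartiteGraph] at hab ⊢)
    simpa [Equiv.arrowCongr] using this

end Pool.Agent.Lib.MP_d38209_co.LB
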