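import Mathlib

/-!
# Definitions for the lower bound `liminf C_opt(D) / D ≥ 1.5989`

`N i j q` is the number of proper colourings of the complete bipartite graph `K_{i,j}` with `q`
colours: for a colouring `g` of the second side with `m` colours there are `(q - m) ^ i` colourings
of the first side.
-/

namespace Pool.Agent.Lib.MP_d38209_co.LB

open Finset

/-- The number of proper colourings of `K_{i,j}` with `q` colours. -/
def N (i j q : ℕ) : ℕ := ∑ g : Fin j → Fin q, (q - (univ.image g).card) ^ i

/-- The terms of the exponential generating function of `N`. -/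
noncomputable def W (q : ℕ) (x y : ℝ) (p : ℕ × ℕ) : ℝ :=
  (N p.1 p.2 q : ℝ) * x ^ p.1 * y ^ p.2 / (p.1.factorial * p.2.factorial)

/-- The limit of `log (N n n (z n) / (z n) ^ (2 n)) / n` for `z x = 2 - exp (-x)`. -/
noncomputable def L (z x : ℝ) : ℝ :=
  z * Real.log (2 * Real.exp x - 1) - 2 - 2 * Real.log (z * x)

/-- The complex function `u = x / (2 - exp (-x))`. -/
noncomputable def u (x : ℂ) : ℂ := x / (2 - Complex.exp (-x))

/-- The complex function `log (2 - exp (-x))`. -/
noncomputable def ell (x : ℂ) : ℂ := Complex.log (2 - Complex.exp (-x))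

end Pool.Agent.Lib.MP_d38209_co.LB
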