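import Pool.Agent.Lib.MP_d38209_co.LB.Defs

/-!
# The exponential generating function of `N`

`∑_{i,j} N(i,j,q) x^i y^j / (i! j!) = (exp x + exp y - 1) ^ q`.

Proof (all terms are `≥ 0`).  For `A ⊆ Fin q` let `s_j(A)` be the number of `g : Fin j → Fin q` with
image exactly `A`.  `∑_{B ⊆ A} s_j(B) = |A|^j`, hence by strong induction over `|A|` and the binomial
theorem `∑_j s_j(A) y^j / j! = (exp y - 1)^{|A|}`.  And `N(i,j,q) = ∑_A s_j(A) (q - |A|)^i`; the terms
are products, and the binomial theorem gives the sum over `A`.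
-/

namespace Pool.Agent.Lib.MP_d38209_co.LB

open Finset

/-- Number of maps with image exactly `A`. -/
private def sur (j q : ℕ) (A : Finset (Fin q)) : ℕ :=
  (univ.filter fun g : Fin j → Fin q => univ.image g = A).card

private lemma hasSum_exp_series (a : ℝ) : HasSum (fun n : ℕ => a ^ n / (n.factorial : ℝ)) (Real.exp a) := by
  rw [Real.exp_eq_exp_ℝ]
  exact NormedSpace.expSeries_div_hasSum_exp a

private lemma card_maps_into (j q : ℕ) (A : Finset (Fin q)) :
    (univ.filter fun g : Fin j → Fin q => univ.image g ⊆ A).card = A.card ^ j := by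
  have : (univ.filter fun g : Fin j → Fin q => univ.image g ⊆ A)
      = Fintype.piFinset fun _ : Fin j => A := by
    ext g
    rw [mem_filter, Fintype.mem_piFinset]
    constructor
    · rintro ⟨_, h⟩ a
      exact h (mem_image_of_mem g (mem_univ a))
    · intro h
      refine ⟨mem_univ _, ?_⟩
      intro b hb
      rw [mem_image] at hb
      obtain ⟨a, _, rfl⟩ := hb
      exact h a
  rw [this, Fintype.card_piFinset]
  simp

private lemma sum_sur (j q : ℕ) (A : Finset (Fin q)) :
    ∑ B ∈ A.powerset, sur j q B = A.card ^ j := by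
  rw [← card_maps_into j q A]
  rw [card_eq_sum_card_fiberwise (f := fun g : Fin j → Fin q => univ.image g) (t := A.powerset)]
  · refine sum_congr rfl fun B hB => ?_
    unfold sur
    rw [filter_filter]
    congr 1
    ext g
    simp only [mem_filter, mem_univ, true_and]
    constructor
    · intro h
      exact ⟨by rw [h]; exact mem_powerset.mp hB, h⟩
    · exact fun h => h.2
  · intro g hg
    simp only [coe_filter, Set.mem_ofPred_eq] at hg
    simp only [coe_powerset, Set.mem_preimage, Set.mem_powerset_iff, coe_subset]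
    exact hg.2

private lemma hasSum_sur (q : ℕ) (y : ℝ) : ∀ (k : ℕ) (A : Finset (Fin q)), A.card = k →
    HasSum (fun j : ℕ => (sur j q A : ℝ) * (y ^ j / (j.factorial : ℝ)))
      ((Real.exp y - 1) ^ A.card) := by
  intro k
  induction k using Nat.strong_induction_on with
  | _ k ih =>
    intro A hA
    have h1 : HasSum (fun j : ℕ => ((A.card : ℝ) * y) ^ j / (j.factorial : ℝ))
        (Real.exp ((A.card : ℝ) * y)) := hasSum_exp_series _
    have h2 : HasSum (fun j : ℕ => ∑ B ∈ A.powerset.erase A,
        (sur j q B : ℝ) * (y ^ j / (j.factorial : ℝ)))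
        (∑ B ∈ A.powerset.erase A, (Real.exp y - 1) ^ B.card) := by
      refine hasSum_sum fun B hB => ?_
      rw [mem_erase, mem_powerset] at hB
      have hlt : B.card < A.card := card_lt_card (Finset.ssubset_iff_subset_ne.mpr ⟨hB.2, hB.1⟩)
      exact ih B.card (hA ▸ hlt) B rfl
    have h3 := h1.sub h2
    have e1 : (fun j : ℕ => ((A.card : ℝ) * y) ^ j / (j.factorial : ℝ) -
        ∑ B ∈ A.powerset.erase A, (sur j q B : ℝ) * (y ^ j / (j.factorial : ℝ)))
        = fun j : ℕ => (sur j q A : ℝ) * (y ^ j / (j.factorial : ℝ)) := by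
      funext j
      have hs := sum_sur j q A
      rw [← add_sum_erase _ _ (mem_powerset_self A)] at hs
      have hs' : (sur j q A : ℝ) + ∑ B ∈ A.powerset.erase A, (sur j q B : ℝ)
          = (A.card : ℝ) ^ j := by exact_mod_cast hs
      rw [← Finset.sum_mul, mul_pow, ← hs']
      ring
    have e2 : Real.exp ((A.card : ℝ) * y) - ∑ B ∈ A.powerset.erase A, (Real.exp y - 1) ^ B.card
        = (Real.exp y - 1) ^ A.card := by
      have hb := sum_pow_mul_eq_add_pow (Real.exp y - 1) 1 A
      rw [← add_sum_erase _ _ (mem_powerset_self A)] at hb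
      simp only [one_pow, mul_one, sub_add_cancel] at hb
      rw [Real.exp_nat_mul, ← hb]
      ring
    rw [e1, e2] at h3
    exact h3

private lemma N_eq (i j q : ℕ) :
    (N i j q : ℝ) = ∑ A : Finset (Fin q), (sur j q A : ℝ) * ((q : ℝ) - A.card) ^ i := by
  unfold N
  have h1 : ∑ g : Fin j → Fin q, (q - (univ.image g).card) ^ i
      = ∑ A : Finset (Fin q), sur j q A * (q - A.card) ^ i := by
    rw [← sum_fiberwise (s := (univ : Finset (Fin j → Fin q)))
      (g := fun g : Fin j → Fin q => univ.image g)]
    refine sum_congr rfl fun A _ => ?_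
    unfold sur
    rw [sum_congr rfl (g := fun _ => (q - A.card) ^ i)]
    · rw [sum_const, smul_eq_mul]
    · intro g hg
      rw [mem_filter] at hg
      rw [hg.2]
  rw [h1]
  push_cast
  refine sum_congr rfl fun A _ => ?_
  have : A.card ≤ q := by
    have := card_le_univ A
    rwa [Fintype.card_fin] at this
  rw [Nat.cast_sub this]

theorem gen (q : ℕ) (x y : ℝ) (hx : 0 ≤ x) (hy : 0 ≤ y) :
    HasSum (W q x y) ((Real.exp x + Real.exp y - 1) ^ q) := by
  have hterm : ∀ A : Finset (Fin q), HasSum
      (fun p : ℕ × ℕ => (((q : ℝ) - A.card) * x) ^ p.1 / (p.1.factorial : ℝ) *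
        ((sur p.2 q A : ℝ) * (y ^ p.2 / (p.2.factorial : ℝ))))
      (Real.exp (((q : ℝ) - A.card) * x) * (Real.exp y - 1) ^ A.card) := by
    intro A
    have hc : (0 : ℝ) ≤ (q : ℝ) - A.card := by
      have := card_le_univ A
      rw [Fintype.card_fin] at this
      have : (A.card : ℝ) ≤ q := by exact_mod_cast this
      linarith
    have h1 := hasSum_exp_series (((q : ℝ) - A.card) * x)
    have h2 := hasSum_sur q y A.card A rfl
    refine h1.mul h2 (Summable.mul_of_nonneg h1.summable h2.summable ?_ ?_)
    · intro n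
      have : 0 ≤ ((q : ℝ) - A.card) * x := mul_nonneg hc hx
      simp only [Pi.zero_apply]
      positivity
    · intro n
      simp only [Pi.zero_apply]
      positivity
  have h := hasSum_sum (s := (univ : Finset (Finset (Fin q)))) fun A _ => hterm A
  have e1 : (fun p : ℕ × ℕ => ∑ A : Finset (Fin q),
      (((q : ℝ) - A.card) * x) ^ p.1 / (p.1.factorial : ℝ) *
        ((sur p.2 q A : ℝ) * (y ^ p.2 / (p.2.factorial : ℝ)))) = W q x y := by
    funext p
    unfold W
    rw [N_eq, Finset.sum_mul, Finset.sum_mul, Finset.sum_div]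
    refine sum_congr rfl fun A _ => ?_
    rw [mul_pow]
    field_simp
  have e2 : ∑ A : Finset (Fin q), Real.exp (((q : ℝ) - A.card) * x) * (Real.exp y - 1) ^ A.card
      = (Real.exp x + Real.exp y - 1) ^ q := by
    have hb := sum_pow_mul_eq_add_pow (Real.exp y - 1) (Real.exp x) (univ : Finset (Fin q))
    rw [powerset_univ, card_univ, Fintype.card_fin] at hb
    have e3 : Real.exp x + Real.exp y - 1 = Real.exp y - 1 + Real.exp x := by ring
    rw [e3, ← hb]
    refine sum_congr rfl fun A _ => ?_
    have hle : A.card ≤ q := by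
      have := card_le_univ A
      rwa [Fintype.card_fin] at this
    rw [← Nat.cast_sub hle, Real.exp_nat_mul]
    ring
  rw [e1, e2] at h
  exact h

end Pool.Agent.Lib.MP_d38209_co.LB
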