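import Pool.Agent.Lib.MP_d38209_co.LB.Low

/-!
# The limit of `log N(n,n,z n)`
-/

namespace Pool.Agent.Lib.MP_d38209_co.LB

open Filter Topology

theorem lim (z : ℕ) (x : ℝ) (hz : 4 ≤ z) (hx : 0 < x) (hzx : (z : ℝ) * x = 2 - Real.exp (-x)) :
    Tendsto (fun n : ℕ => Real.log ((N n n (z * n) : ℝ) / ((z : ℝ) * n) ^ (2 * n)) / n) atTop
      (𝓝 (L z x)) := by
  rw [Metric.tendsto_atTop]
  intro ε hε
  have h1 := upp z x hz hx (ε / 2) (by positivity)
  have h2 := low z x hz hx hzx (ε / 2) (by positivity)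
  obtain ⟨n0, h0⟩ := eventually_atTop.mp (h1.and h2)
  refine ⟨n0, fun n hn => ?_⟩
  obtain ⟨ha, hb⟩ := h0 n hn
  rw [Real.dist_eq, abs_lt]
  constructor <;> linarith

end Pool.Agent.Lib.MP_d38209_co.LB
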