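import Pool.Agent.Lib.MP_d38209_co.LB.Gen
import Pool.Agent.Lib.MP_d38209_co.LB.Step

/-!
# Stirling and the upper bound

(1) `log n! / n - log n → -1` (for example from `Stirling.tendsto_stirlingSeq_sqrt_pi` /
`Stirling.log_stirlingSeq_formula`, or from the elementary `n^n exp(-n) ≤ n! ≤ n^(n+1) exp(1-n)`).
(2) `i^i exp(-i) ≤ i!` (`Real.pow_div_factorial_le_exp` or similar).
(3) One term of `gen` is at most the sum: `N(n,n,q) x^(2n) / (n!)^2 ≤ (2 exp x - 1)^q`, `q = z n`,
so with `z x > 0`: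
`log (N(n,n,q) / (z n)^(2n)) / n ≤ z log (2 exp x - 1) - 2 log x - 2 log z + 2 (log n! / n - log n)`,
which tends to `L z x`.
-/

namespace Pool.Agent.Lib.MP_d38209_co.LB

open Finset Filter Topology

theorem fact_lower (i : ℕ) : (i : ℝ) ^ i * Real.exp (-(i : ℝ)) ≤ i.factorial := by
  have h := Real.pow_div_factorial_le_exp (x := (i : ℝ)) (Nat.cast_nonneg i) i
  have hf : (0 : ℝ) < (i.factorial : ℝ) := by exact_mod_cast i.factorial_pos
  rw [div_le_iff₀ hf] at h
  calc (i : ℝ) ^ i * Real.exp (-(i : ℝ))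
      ≤ Real.exp i * i.factorial * Real.exp (-(i : ℝ)) :=
        mul_le_mul_of_nonneg_right h (Real.exp_pos _).le
    _ = i.factorial * (Real.exp i * Real.exp (-(i : ℝ))) := by ring
    _ = i.factorial := by rw [← Real.exp_add, add_neg_cancel, Real.exp_zero, mul_one]

theorem tendsto_log_fact :
    Tendsto (fun n : ℕ => Real.log (n.factorial : ℝ) / n - Real.log n) atTop (𝓝 (-1)) := by
  have hcast : Tendsto (fun n : ℕ => (n : ℝ)) atTop atTop := tendsto_natCast_atTop_atTop
  have h1 : Tendsto (fun n : ℕ => Real.log (Stirling.stirlingSeq n) / (n : ℝ)) atTop (𝓝 0) := by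
    have hs : Tendsto (fun n : ℕ => Real.log (Stirling.stirlingSeq n)) atTop
        (𝓝 (Real.log (Real.sqrt Real.pi))) := by
      refine (Real.continuousAt_log ?_).tendsto.comp Stirling.tendsto_stirlingSeq_sqrt_pi
      exact (Real.sqrt_pos.mpr Real.pi_pos).ne'
    exact hs.div_atTop hcast
  have h2 : Tendsto (fun n : ℕ => Real.log (2 * (n : ℝ)) / (2 * (n : ℝ))) atTop (𝓝 0) := by
    have h := Real.tendsto_pow_log_div_mul_add_atTop 1 0 1 one_ne_zero
    have hc : Tendsto (fun n : ℕ => 2 * (n : ℝ)) atTop atTop :=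
      hcast.const_mul_atTop (by norm_num)
    refine (h.comp hc).congr fun n => ?_
    simp
  have h3 : Tendsto (fun n : ℕ => Real.log (Stirling.stirlingSeq n) / (n : ℝ)
      + Real.log (2 * (n : ℝ)) / (2 * (n : ℝ)) + (-1)) atTop (𝓝 (0 + 0 + (-1))) :=
    (h1.add h2).add tendsto_const_nhds
  rw [zero_add, zero_add] at h3
  refine h3.congr' ?_
  filter_upwards [eventually_ge_atTop 1] with n hn
  have hn0 : (0 : ℝ) < (n : ℝ) := by exact_mod_cast hn
  have hf := Stirling.log_stirlingSeq_formula n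
  have hl : Real.log ((n : ℝ) / Real.exp 1) = Real.log n - 1 := by
    rw [Real.log_div hn0.ne' (Real.exp_pos 1).ne', Real.log_exp]
  rw [hl] at hf
  rw [hf]
  field_simp
  ring

theorem upp (z : ℕ) (x : ℝ) (hz : 4 ≤ z) (hx : 0 < x) (ε : ℝ) (hε : 0 < ε) :
    ∀ᶠ n : ℕ in atTop,
      Real.log ((N n n (z * n) : ℝ) / ((z : ℝ) * n) ^ (2 * n)) / n ≤ L z x + ε := by
  have ht : ∀ᶠ n : ℕ in atTop, Real.log (n.factorial : ℝ) / n - Real.log n < -1 + ε / 2 :=
    tendsto_log_fact.eventually (gt_mem_nhds (by linarith))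
  filter_upwards [ht, eventually_ge_atTop 1] with n hn hn1
  have hn0 : (0 : ℝ) < (n : ℝ) := by exact_mod_cast hn1
  have hz0 : (0 : ℝ) < (z : ℝ) := by
    have : 0 < z := by omega
    exact_mod_cast this
  have hNpos : (0 : ℝ) < (N n n (z * n) : ℝ) := by
    have := N_pos n n (z * n) (by nlinarith)
    exact_mod_cast this
  have hf : (0 : ℝ) < (n.factorial : ℝ) := by exact_mod_cast n.factorial_pos
  have hE : 0 < 2 * Real.exp x - 1 := by
    have := Real.one_lt_exp_iff.mpr hx
    linarith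
  have hle : W (z * n) x x (n, n) ≤ (Real.exp x + Real.exp x - 1) ^ (z * n) := by
    refine le_hasSum (gen (z * n) x x hx.le hx.le) (n, n) fun p _ => ?_
    unfold W
    positivity
  unfold W at hle
  simp only at hle
  have hsum : Real.exp x + Real.exp x - 1 = 2 * Real.exp x - 1 := by ring
  rw [hsum] at hle
  have hlog := Real.log_le_log (by positivity) hle
  rw [Real.log_pow, Real.log_div (by positivity) (by positivity), Real.log_mul (by positivity)
    (by positivity), Real.log_mul (by positivity) (by positivity), Real.log_pow,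
    Real.log_mul hf.ne' hf.ne'] at hlog
  rw [Real.log_div hNpos.ne' (by positivity), Real.log_pow, Real.log_mul hz0.ne' hn0.ne']
  rw [div_le_iff₀ hn0]
  unfold L
  rw [Real.log_mul hz0.ne' hx.ne']
  have hn' : Real.log (n.factorial : ℝ) < (-1 + ε / 2 + Real.log n) * n := by
    have : Real.log (n.factorial : ℝ) / n < -1 + ε / 2 + Real.log n := by linarith
    rwa [div_lt_iff₀ hn0] at this
  push_cast at hlog ⊢
  nlinarith

end Pool.Agent.Lib.MP_d38209_co.LB
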