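import Pool.Agent.Lib.MP_d38209_co.LB.Box
import Pool.Agent.Lib.MP_d38209_co.LB.Comp
import Pool.Agent.Lib.MP_d38209_co.LB.Upp

/-!
# The lower bound

Let `0 < δ < 1` (to be chosen small) and let `i, j` be as in `box`.  With `q = z n`,
`s = z x = 2 - exp(-x) ∈ (1, 2)`, by `comp`, `box`, `fact_lower`:
`N(n,n,q)/q^(2n) ≥ 2^(-2δn) N(i,j,q)/q^(i+j) ≥ 2^(-2δn) M / (18 n^2) · i! j! / (x q)^(i+j)`,
`M = (2 exp x - 1)^(z n)`, and `i! / (x q)^i ≥ (i / (e s n))^i`, where
`log ((i/(e s n))^i) = i log(i/n) - i (1 + log s) ≥ (1+δ) n log(1-δ) - (1+δ) n (1 + log s)`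
(as `log (i/n) ≥ log (1-δ)`, `log(1-δ) < 0`, `0 < i ≤ (1+δ) n`, `1 + log s > 0`; same for `j`).
Dividing by `n`: the left side is at least
`-2 δ log 2 + z log(2 exp x - 1) - log(18 n^2)/n + 2 (1+δ) log(1-δ) - 2 (1+δ)(1 + log s)`, which tends
(`n → ∞`, then `δ → 0`) to `L z x`.  Choose `δ` with total error `< ε / 2`, then `n` large.
-/

namespace Pool.Agent.Lib.MP_d38209_co.LB

open Finset Filter Topology

/-- The factorial against the power of `s n`. -/
private theorem low_fact (i n : ℕ) (δ s : ℝ) (hn : 0 < n) (hδ : 0 < δ) (hδ1 : δ < 1)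
    (hs : 1 < s) (hi : |(i : ℝ) - n| ≤ δ * n) :
    (1 + δ) * n * (Real.log (1 - δ) - (1 + Real.log s)) ≤
      Real.log (i.factorial : ℝ) - i * Real.log (s * n) := by
  have hn' : (0 : ℝ) < n := by exact_mod_cast hn
  obtain ⟨h1, h2⟩ := abs_le.1 hi
  have hlo : (1 - δ) * n ≤ i := by linarith
  have hup : (i : ℝ) ≤ (1 + δ) * n := by linarith
  have hd : 0 < 1 - δ := by linarith
  have hi0 : (0 : ℝ) < i := lt_of_lt_of_le (mul_pos hd hn') hlo
  have h3 : (i : ℝ) * Real.log i - i ≤ Real.log (i.factorial : ℝ) := by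
    have h4 := Real.log_le_log (by positivity) (fact_lower i)
    rw [Real.log_mul (by positivity) (by positivity), Real.log_pow, Real.log_exp] at h4
    linarith
  have h5 : Real.log (s * n) = Real.log s + Real.log n :=
    Real.log_mul (by linarith) hn'.ne'
  have h6 : Real.log (1 - δ) + Real.log n ≤ Real.log i := by
    rw [← Real.log_mul hd.ne' hn'.ne']
    exact Real.log_le_log (mul_pos hd hn') hlo
  have h7 : Real.log (1 - δ) ≤ 0 := Real.log_nonpos hd.le (by linarith)
  have h8 : 0 ≤ Real.log s := Real.log_nonneg hs.le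
  have h9 : (i : ℝ) * (Real.log (1 - δ) - (1 + Real.log s)) ≤
      Real.log (i.factorial : ℝ) - i * Real.log (s * n) := by
    rw [h5]
    have h10 : (i : ℝ) * (Real.log (1 - δ) + Real.log n) ≤ i * Real.log i :=
      mul_le_mul_of_nonneg_left h6 hi0.le
    nlinarith
  refine le_trans ?_ h9
  exact mul_le_mul_of_nonpos_right hup (by linarith)

private theorem low_log_term :
    Tendsto (fun n : ℕ => Real.log (18 * (n : ℝ) ^ 2) / n) atTop (𝓝 0) := by
  have h1 : Tendsto (fun n : ℕ => Real.log (n : ℝ) / n) atTop (𝓝 0) :=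
    Real.isLittleO_log_id_atTop.tendsto_div_nhds_zero.comp tendsto_natCast_atTop_atTop
  have h2 : Tendsto (fun n : ℕ => Real.log 18 / (n : ℝ)) atTop (𝓝 0) :=
    tendsto_const_div_atTop_nhds_zero_nat _
  have h3 : Tendsto (fun n : ℕ => Real.log 18 / (n : ℝ) + 2 * (Real.log (n : ℝ) / n)) atTop
      (𝓝 0) := by
    have := h2.add (h1.const_mul 2)
    simpa using this
  refine h3.congr' ?_
  filter_upwards [eventually_gt_atTop 0] with n hn
  have hn' : (0 : ℝ) < n := by exact_mod_cast hn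
  rw [Real.log_mul (by norm_num) (by positivity), Real.log_pow]
  push_cast
  ring

theorem low (z : ℕ) (x : ℝ) (hz : 4 ≤ z) (hx : 0 < x) (hzx : (z : ℝ) * x = 2 - Real.exp (-x))
    (ε : ℝ) (hε : 0 < ε) :
    ∀ᶠ n : ℕ in atTop,
      L z x - ε ≤ Real.log ((N n n (z * n) : ℝ) / ((z : ℝ) * n) ^ (2 * n)) / n := by
  -- the choice of `δ`
  set δ : ℝ := min (1 / 2) (ε / 32) with hδdef
  have hδ : 0 < δ := lt_min (by norm_num) (by positivity)
  have hδh : δ ≤ 1 / 2 := min_le_left _ _
  have hδε : δ ≤ ε / 32 := min_le_right _ _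
  have hδ1 : δ < 1 := by linarith
  set s : ℝ := (z : ℝ) * x with hsdef
  have hs1 : 1 < s := by
    rw [hzx]
    have : Real.exp (-x) < 1 := Real.exp_lt_one_iff.2 (by linarith)
    linarith
  have hs2 : s < 2 := by
    rw [hzx]
    have := Real.exp_pos (-x)
    linarith
  have hlogs : Real.log s ≤ 1 := by
    have := Real.log_le_sub_one_of_pos (show 0 < s by linarith)
    linarith
  have hlogs0 : 0 ≤ Real.log s := Real.log_nonneg hs1.le
  have hlog2 : Real.log 2 ≤ 1 := by
    have := Real.log_le_sub_one_of_pos (show (0 : ℝ) < 2 by norm_num)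
    linarith
  have hlogd : -(2 * δ) ≤ Real.log (1 - δ) := by
    have h1 := Real.one_sub_inv_le_log_of_pos (show 0 < 1 - δ by linarith)
    have h2 : (1 - δ)⁻¹ ≤ 1 + 2 * δ := by
      rw [inv_le_iff_one_le_mul₀ (by linarith)]
      nlinarith
    linarith
  have hz0 : (0 : ℝ) < z := by
    have : 0 < z := by omega
    exact_mod_cast this
  have hex1 : 1 < Real.exp x := Real.one_lt_exp_iff.2 hx
  filter_upwards [box z x δ hx hzx hδ hδ1, eventually_gt_atTop 0,
    low_log_term.eventually (gt_mem_nhds (show (0 : ℝ) < ε / 2 by positivity))] with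
    n hbox hn hlogn
  obtain ⟨i, j, hi, hj, hM⟩ := hbox
  have hn' : (0 : ℝ) < n := by exact_mod_cast hn
  have hcomp := comp z n i j δ hz hn hδ hδ1 hi hj
  -- positivity
  have hMpos : 0 < (2 * Real.exp x - 1) ^ (z * n) := by
    apply pow_pos
    linarith
  have hWpos : 0 < W (z * n) x x (i, j) := by
    have h1 : 0 < 2 * (3 * (n : ℝ)) ^ 2 * W (z * n) x x (i, j) := lt_of_lt_of_le hMpos hM
    exact (mul_pos_iff_of_pos_left (by positivity)).1 h1
  have hWdef : W (z * n) x x (i, j) =
      (N i j (z * n) : ℝ) * x ^ i * x ^ j / (i.factorial * j.factorial) := rfl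
  have hNpos : 0 < (N i j (z * n) : ℝ) := by
    rcases Nat.eq_zero_or_pos (N i j (z * n)) with h0 | h0
    · exfalso
      rw [hWdef, h0] at hWpos
      simp at hWpos
    · exact_mod_cast h0
  have hif : (0 : ℝ) < i.factorial := by exact_mod_cast i.factorial_pos
  have hjf : (0 : ℝ) < j.factorial := by exact_mod_cast j.factorial_pos
  have hzn : (0 : ℝ) < (z : ℝ) * n := mul_pos hz0 hn'
  -- logarithm of the lower bound of `comp`
  have hlogcomp : Real.log (N i j (z * n) : ℝ) - (i + j) * Real.log ((z : ℝ) * n) -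
      2 * δ * n * Real.log 2 ≤
      Real.log ((N n n (z * n) : ℝ) / ((z : ℝ) * n) ^ (2 * n)) := by
    have h1 := Real.log_le_log (by positivity) hcomp
    rw [Real.log_mul (by positivity) (by positivity), Real.log_div hNpos.ne' (by positivity),
      Real.log_pow, Real.log_rpow (by norm_num)] at h1
    rw [one_div, Real.log_inv] at h1
    push_cast at h1
    linarith
  -- logarithm of `W`
  have hlogW : Real.log (W (z * n) x x (i, j)) = Real.log (N i j (z * n) : ℝ) +
      (i + j) * Real.log x - Real.log (i.factorial : ℝ) - Real.log (j.factorial : ℝ) := by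
    rw [hWdef, Real.log_div (by positivity) (by positivity), Real.log_mul (by positivity)
      (by positivity), Real.log_mul (by positivity) (by positivity), Real.log_pow, Real.log_pow,
      Real.log_mul hif.ne' hjf.ne']
    ring
  have hlogM : (z : ℝ) * n * Real.log (2 * Real.exp x - 1) ≤
      Real.log (18 * (n : ℝ) ^ 2) + Real.log (W (z * n) x x (i, j)) := by
    have h1 := Real.log_le_log hMpos hM
    rw [Real.log_pow, Real.log_mul (by positivity) hWpos.ne'] at h1
    have h2 : 2 * (3 * (n : ℝ)) ^ 2 = 18 * (n : ℝ) ^ 2 := by ring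
    rw [h2] at h1
    push_cast at h1
    linarith
  have hlogsn : Real.log x + Real.log ((z : ℝ) * n) = Real.log (s * n) := by
    rw [← Real.log_mul hx.ne' hzn.ne', hsdef]
    congr 1
    ring
  have hfi := low_fact i n δ s hn hδ hδ1 hs1 hi
  have hfj := low_fact j n δ s hn hδ hδ1 hs1 hj
  set A : ℝ := Real.log ((N n n (z * n) : ℝ) / ((z : ℝ) * n) ^ (2 * n)) with hA
  set K : ℝ := Real.log (1 - δ) - (1 + Real.log s) with hK
  have hmain : (z : ℝ) * n * Real.log (2 * Real.exp x - 1) - Real.log (18 * (n : ℝ) ^ 2) -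
      2 * δ * n * Real.log 2 + 2 * ((1 + δ) * n * K) ≤ A := by
    have e1 : (i : ℝ) * Real.log (s * n) = i * Real.log x + i * Real.log ((z : ℝ) * n) := by
      rw [← hlogsn]; ring
    have e2 : (j : ℝ) * Real.log (s * n) = j * Real.log x + j * Real.log ((z : ℝ) * n) := by
      rw [← hlogsn]; ring
    rw [e1] at hfi
    rw [e2] at hfj
    rw [hlogW] at hlogM
    linarith
  rw [le_div_iff₀ hn']
  have hL : L z x = z * Real.log (2 * Real.exp x - 1) - 2 - 2 * Real.log s := rfl
  rw [hL]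
  have hlogn' : Real.log (18 * (n : ℝ) ^ 2) ≤ ε / 2 * n := by
    rw [← div_le_iff₀ hn']
    exact hlogn.le
  -- the error terms
  have herr : -(ε / 2) ≤ -(2 * δ * Real.log 2) + 2 * ((1 + δ) * K) + 2 * (1 + Real.log s) := by
    rw [hK]
    have h1 : δ * Real.log 2 ≤ δ := by nlinarith
    have h2 : -(4 * δ) ≤ (1 + δ) * Real.log (1 - δ) := by
      have h3 : (1 + δ) * -(2 * δ) ≤ (1 + δ) * Real.log (1 - δ) :=
        mul_le_mul_of_nonneg_left hlogd (by linarith)
      nlinarith
    have h4 : δ * (1 + Real.log s) ≤ 2 * δ := by nlinarith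
    nlinarith
  have hfin : (-(ε / 2)) * n ≤
      (-(2 * δ * Real.log 2) + 2 * ((1 + δ) * K) + 2 * (1 + Real.log s)) * n :=
    mul_le_mul_of_nonneg_right herr hn'.le
  nlinarith

end Pool.Agent.Lib.MP_d38209_co.LB
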