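import Pool.Agent.Lib.MP_d38209_co.LB.Defs

/-!
# `|u(t x0)| ≤ |u(x0)| = exp a` on the segment, `x0 = a + i b`

`‖u (t x0)‖² = t² (a² + b²) / h(t)`, `h(t) = ‖2 - exp(-t x0)‖² = 4 - 4 e^{-at} cos(bt) + e^{-2at}`.
Claim: `t² h(1) ≤ h(t)` for `t ∈ [0,1]`, and `h(1) = (a² + b²) e^{-2a}`, so
`‖u (t x0)‖² ≤ e^{2a}` (for `t = 0` trivial).
From the hypotheses, with `E = e^{-a}`: `cos b = (1+a) E / 2`, `sin b = b E / 2`,
`E² ((1+a)² + b²) = 4`; so `h(1) = E² (a² + b²)` and `h'(1) = 2 E² (a² + b²) = 2 h(1)`.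
Put `κ(t) = 2 h(t) - t h'(t)`: `κ(1) = 0`, `κ'(t) = h'(t) - t h''(t)`, `κ'(0) = h'(0) = 2 a < 0`,
`κ''(t) = -t h'''(t)`, where
`h'''(t) = 4 e^{-at} ((a³ - 3ab²) cos(bt) + (3a²b - b³) sin(bt)) - 8 a³ e^{-2at}`.
`h''' ≥ 0` on `[0,1]`: `-8 a³ > 0`; `a³ - 3 a b² = a (a² - 3 b²) > 0`, `3 a² b - b³ ≤ 0` or the
bracket is trivially `≥ 0`; `cos(bt) ≥ cos b`, `sin(bt) ≤ sin b`, and
`(a³ - 3ab²) cos b + (3a²b - b³) sin b = (E/2) (a (1+a) (a² - 3b²) + b² (3a² - b²)) ≥ 0` (`h3`).
(`a² < 1/4 < ...`: `b² = 4 e^{2a} - (1+a)² > 4/e - 1 > 0.47`, so `3 b² > a²`.)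
Hence `κ'` is antitone on `[0,1]`, `κ' ≤ κ'(0) < 0`, `κ` is antitone, `κ(t) ≥ κ(1) = 0`, and
`(h(t)/t²)' = -κ(t)/t³ ≤ 0`, so `h(t)/t² ≥ h(1)` for `0 < t ≤ 1`.
(`antitoneOn_of_deriv_nonpos`.)
-/

namespace Pool.Agent.Lib.MP_d38209_co.LB

/-- `h(t) = |2 - exp(-t(a+ib))|²` -/
noncomputable def hh (a b t : ℝ) : ℝ :=
  4 - 4 * (Real.exp (-(a * t)) * Real.cos (b * t)) + Real.exp (-(2 * a * t))

theorem mono_antitone {f f' : ℝ → ℝ} (hf : ∀ t, HasDerivAt f (f' t) t) {s : Set ℝ}
    (hs : Convex ℝ s) (h : ∀ t ∈ interior s, f' t ≤ 0) : AntitoneOn f s := by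
  refine antitoneOn_of_deriv_nonpos hs ?_ ?_ ?_
  · exact fun t _ => (hf t).continuousAt.continuousWithinAt
  · exact fun t _ => (hf t).differentiableAt.differentiableWithinAt
  · intro t ht
    rw [(hf t).deriv]
    exact h t ht

theorem mono_d_exp (c t : ℝ) :
    HasDerivAt (fun t => Real.exp (-(c * t))) (Real.exp (-(c * t)) * (-c)) t := by
  have h : HasDerivAt (fun t : ℝ => -(c * t)) (-c) t := by
    have := (hasDerivAt_id t).const_mul (-c)
    simpa using this
  exact h.exp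

theorem mono_d_cos (b t : ℝ) :
    HasDerivAt (fun t => Real.cos (b * t)) (-Real.sin (b * t) * b) t := by
  have h : HasDerivAt (fun t : ℝ => b * t) b t := by
    simpa using (hasDerivAt_id t).const_mul b
  exact h.cos

theorem mono_d_sin (b t : ℝ) :
    HasDerivAt (fun t => Real.sin (b * t)) (Real.cos (b * t) * b) t := by
  have h : HasDerivAt (fun t : ℝ => b * t) b t := by
    simpa using (hasDerivAt_id t).const_mul b
  exact h.sin

/-- generic combination `e^{-at} (p cos + q sin)` -/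
theorem mono_d_comb (a b p q t : ℝ) :
    HasDerivAt (fun t => Real.exp (-(a * t)) * (p * Real.cos (b * t) + q * Real.sin (b * t)))
      (Real.exp (-(a * t)) *
        ((-a * p + b * q) * Real.cos (b * t) + (-a * q - b * p) * Real.sin (b * t))) t := by
  have h := (mono_d_exp a t).mul (((mono_d_cos b t).const_mul p).add ((mono_d_sin b t).const_mul q))
  refine h.congr_deriv ?_
  simp only [Pi.add_apply]
  ring

noncomputable def monoh1 (a b t : ℝ) : ℝ :=
  4 * (Real.exp (-(a * t)) * (a * Real.cos (b * t) + b * Real.sin (b * t)))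
    - 2 * a * Real.exp (-(2 * a * t))

noncomputable def monoh2 (a b t : ℝ) : ℝ :=
  4 * (Real.exp (-(a * t)) * ((b ^ 2 - a ^ 2) * Real.cos (b * t) + (-2 * a * b) * Real.sin (b * t)))
    + 4 * a ^ 2 * Real.exp (-(2 * a * t))

noncomputable def monoh3 (a b t : ℝ) : ℝ :=
  4 * (Real.exp (-(a * t)) * ((a ^ 3 - 3 * a * b ^ 2) * Real.cos (b * t)
    + (3 * a ^ 2 * b - b ^ 3) * Real.sin (b * t))) - 8 * a ^ 3 * Real.exp (-(2 * a * t))

theorem mono_h0 (a b t : ℝ) : HasDerivAt (hh a b) (monoh1 a b t) t := by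
  have h := ((mono_d_comb a b 1 0 t).const_mul (-4)).add (mono_d_exp (2 * a) t)
  have h' := h.const_add 4
  have e : hh a b = fun t => 4 + (-4 * (Real.exp (-(a * t)) * (1 * Real.cos (b * t)
      + 0 * Real.sin (b * t))) + Real.exp (-(2 * a * t))) := by
    funext s; unfold hh; ring
  rw [e]
  refine h'.congr_deriv ?_
  unfold monoh1; ring

theorem mono_h1 (a b t : ℝ) : HasDerivAt (monoh1 a b) (monoh2 a b t) t := by
  have h := ((mono_d_comb a b a b t).const_mul 4).sub
    ((mono_d_exp (2 * a) t).const_mul (2 * a))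
  refine h.congr_deriv ?_
  unfold monoh2; ring

theorem mono_h2 (a b t : ℝ) : HasDerivAt (monoh2 a b) (monoh3 a b t) t := by
  have h := ((mono_d_comb a b (b ^ 2 - a ^ 2) (-2 * a * b) t).const_mul 4).add
    ((mono_d_exp (2 * a) t).const_mul (4 * a ^ 2))
  refine h.congr_deriv ?_
  unfold monoh3; ring

theorem hh_ge (a b : ℝ) (hb : 0 < b) (hb2 : b < Real.pi / 2) (ha : -(1 / 2) < a) (ha0 : a < 0)
    (h1 : Real.exp a * Real.cos b = (1 + a) / 2) (h2 : Real.exp a * Real.sin b = b / 2)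
    (h3 : 0 ≤ a * (1 + a) * (a ^ 2 - 3 * b ^ 2) + b ^ 2 * (3 * a ^ 2 - b ^ 2)) :
    hh a b 1 = Real.exp (-(2 * a)) * (a ^ 2 + b ^ 2) ∧
    ∀ t ∈ Set.Icc (0 : ℝ) 1, t ^ 2 * hh a b 1 ≤ hh a b t := by
  have hE : Real.exp a * Real.exp (-a) = 1 := by rw [← Real.exp_add]; simp
  set E := Real.exp (-a) with hEdef
  have hEpos : 0 < E := Real.exp_pos _
  have hc : Real.cos b = (1 + a) * E / 2 := by
    have : E * (Real.exp a * Real.cos b) = E * ((1 + a) / 2) := by rw [h1]
    have h' : E * (Real.exp a * Real.cos b) = Real.cos b := by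
      rw [← mul_assoc, mul_comm E, hE, one_mul]
    rw [h'] at this; rw [this]; ring
  have hs : Real.sin b = b * E / 2 := by
    have : E * (Real.exp a * Real.sin b) = E * (b / 2) := by rw [h2]
    have h' : E * (Real.exp a * Real.sin b) = Real.sin b := by
      rw [← mul_assoc, mul_comm E, hE, one_mul]
    rw [h'] at this; rw [this]; ring
  have hE2 : E ^ 2 * ((1 + a) ^ 2 + b ^ 2) = 4 := by
    have := Real.sin_sq_add_cos_sq b
    rw [hc, hs] at this
    nlinarith
  have e2 : Real.exp (-(2 * a)) = E ^ 2 := by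
    rw [hEdef, sq, ← Real.exp_add]; congr 1; ring
  have hh1 : hh a b 1 = E ^ 2 * (a ^ 2 + b ^ 2) := by
    unfold hh
    have e1 : Real.exp (-(a * 1)) = E := by rw [mul_one]
    rw [e1, mul_one, mul_one, e2, hc]
    nlinarith
  have hh1' : monoh1 a b 1 = 2 * (E ^ 2 * (a ^ 2 + b ^ 2)) := by
    unfold monoh1
    have e1 : Real.exp (-(a * 1)) = E := by rw [mul_one]
    rw [e1, mul_one, mul_one, e2, hc, hs]
    ring
  refine ⟨by rw [hh1, e2], ?_⟩
  -- third derivative nonnegative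
  have hb2' : a ^ 2 ≤ 3 * b ^ 2 := by
    have hE4 : E ^ 2 ≤ 4 := by
      have : E ≤ Real.exp 1 := by
        rw [hEdef]; exact Real.exp_le_exp.mpr (by linarith)
      have h12 : E ≤ 2 := by
        have hh' : E ≤ Real.exp (1 / 2) := by
          rw [hEdef]; exact Real.exp_le_exp.mpr (by linarith)
        have h4 : Real.exp (1 / 2) ^ 2 = Real.exp 1 := by
          rw [sq, ← Real.exp_add]; norm_num
        have h5 := Real.exp_one_lt_d9
        have h6 : 0 < Real.exp (1 / 2 : ℝ) := Real.exp_pos _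
        nlinarith
      nlinarith
    have hE3 : E ^ 2 ≤ 2.7182818286 := by
      have hh' : E ≤ Real.exp (1 / 2) := by
        rw [hEdef]; exact Real.exp_le_exp.mpr (by linarith)
      have h4 : Real.exp (1 / 2) ^ 2 = Real.exp 1 := by
        rw [sq, ← Real.exp_add]; norm_num
      have h5 := Real.exp_one_lt_d9
      have h6 : 0 < Real.exp (1 / 2 : ℝ) := Real.exp_pos _
      have h7 : E ^ 2 ≤ Real.exp (1 / 2) ^ 2 := by
        apply pow_le_pow_left₀ hEpos.le hh'
      linarith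
    have hEE : 0 < E ^ 2 := by positivity
    have : 4 ≤ 2.7182818286 * ((1 + a) ^ 2 + b ^ 2) := by
      rw [← hE2]
      apply mul_le_mul_of_nonneg_right hE3 (by positivity)
    nlinarith
  have h3nn : ∀ t ∈ Set.Icc (0 : ℝ) 1, 0 ≤ monoh3 a b t := by
    intro t ht
    have hbt0 : 0 ≤ b * t := mul_nonneg hb.le ht.1
    have hbt1 : b * t ≤ b := by nlinarith [ht.2]
    have hcos : Real.cos b ≤ Real.cos (b * t) :=
      Real.cos_le_cos_of_nonneg_of_le_pi hbt0 (by linarith [Real.pi_pos]) hbt1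
    have hsin : Real.sin (b * t) ≤ Real.sin b :=
      Real.sin_le_sin_of_le_of_le_pi_div_two (by linarith [Real.pi_pos]) hb2.le hbt1
    have hsin0 : 0 ≤ Real.sin (b * t) :=
      Real.sin_nonneg_of_nonneg_of_le_pi hbt0 (by linarith [Real.pi_pos])
    have hp : 0 ≤ a ^ 3 - 3 * a * b ^ 2 := by nlinarith
    have hcos0 : 0 ≤ Real.cos b := (Real.cos_pos_of_mem_Ioo ⟨by linarith [Real.pi_pos], hb2⟩).le
    have hbr : 0 ≤ (a ^ 3 - 3 * a * b ^ 2) * Real.cos (b * t)
        + (3 * a ^ 2 * b - b ^ 3) * Real.sin (b * t) := by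
      rcases le_total 0 (3 * a ^ 2 * b - b ^ 3) with hq | hq
      · exact add_nonneg (mul_nonneg hp (hcos0.trans hcos)) (mul_nonneg hq hsin0)
      · have i1 : (a ^ 3 - 3 * a * b ^ 2) * Real.cos b ≤
            (a ^ 3 - 3 * a * b ^ 2) * Real.cos (b * t) := mul_le_mul_of_nonneg_left hcos hp
        have i2 : (3 * a ^ 2 * b - b ^ 3) * Real.sin b ≤
            (3 * a ^ 2 * b - b ^ 3) * Real.sin (b * t) := by nlinarith
        have i3 : (a ^ 3 - 3 * a * b ^ 2) * Real.cos b + (3 * a ^ 2 * b - b ^ 3) * Real.sin b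
            = E / 2 * (a * (1 + a) * (a ^ 2 - 3 * b ^ 2) + b ^ 2 * (3 * a ^ 2 - b ^ 2)) := by
          rw [hc, hs]; ring
        have i4 : 0 ≤ E / 2 * (a * (1 + a) * (a ^ 2 - 3 * b ^ 2)
            + b ^ 2 * (3 * a ^ 2 - b ^ 2)) := mul_nonneg (by positivity) h3
        linarith
    have ha3 : 0 ≤ -(8 * a ^ 3) := by
      have : a ^ 3 ≤ 0 := by
        have h0 : 0 ≤ a ^ 2 := sq_nonneg a
        nlinarith
      linarith
    unfold monoh3
    have j1 : 0 ≤ 4 * (Real.exp (-(a * t)) * ((a ^ 3 - 3 * a * b ^ 2) * Real.cos (b * t)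
        + (3 * a ^ 2 * b - b ^ 3) * Real.sin (b * t))) := by
      have := Real.exp_pos (-(a * t)); positivity
    have j2 : 0 ≤ -(8 * a ^ 3) * Real.exp (-(2 * a * t)) :=
      mul_nonneg ha3 (Real.exp_pos _).le
    linarith
  -- κ' antitone
  have k1 : ∀ t, HasDerivAt (fun t => monoh1 a b t - t * monoh2 a b t) (-(t * monoh3 a b t)) t := by
    intro t
    have := (mono_h1 a b t).sub ((hasDerivAt_id t).mul (mono_h2 a b t))
    refine this.congr_deriv ?_
    simp only [id]
    ring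
  have k1a : AntitoneOn (fun t => monoh1 a b t - t * monoh2 a b t) (Set.Icc 0 1) := by
    refine mono_antitone k1 (convex_Icc 0 1) ?_
    intro t ht
    rw [interior_Icc] at ht
    have := h3nn t ⟨ht.1.le, ht.2.le⟩
    nlinarith [ht.1, mul_nonneg ht.1.le this]
  have k1n : ∀ t ∈ Set.Icc (0 : ℝ) 1, monoh1 a b t - t * monoh2 a b t ≤ 0 := by
    intro t ht
    have := k1a (Set.left_mem_Icc.mpr zero_le_one) ht ht.1
    have e0 : monoh1 a b 0 - 0 * monoh2 a b 0 = 2 * a := by
      unfold monoh1; simp; ring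
    simp only [] at this
    linarith
  have k0 : ∀ t, HasDerivAt (fun t => 2 * hh a b t - t * monoh1 a b t)
      (monoh1 a b t - t * monoh2 a b t) t := by
    intro t
    have := ((mono_h0 a b t).const_mul 2).sub ((hasDerivAt_id t).mul (mono_h1 a b t))
    refine this.congr_deriv ?_
    simp only [id]
    ring
  have k0a : AntitoneOn (fun t => 2 * hh a b t - t * monoh1 a b t) (Set.Icc 0 1) := by
    refine mono_antitone k0 (convex_Icc 0 1) ?_
    intro t ht
    rw [interior_Icc] at ht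
    exact k1n t ⟨ht.1.le, ht.2.le⟩
  have k0n : ∀ t ∈ Set.Icc (0 : ℝ) 1, 0 ≤ 2 * hh a b t - t * monoh1 a b t := by
    intro t ht
    have := k0a ht (Set.right_mem_Icc.mpr zero_le_one) ht.2
    simp only [] at this
    rw [hh1, hh1'] at this
    linarith
  intro t ht
  rcases eq_or_lt_of_le ht.1 with h0 | h0
  · rw [← h0]
    have : 0 ≤ hh a b 0 := by unfold hh; simp
    simpa using this
  · have g : AntitoneOn (fun s => hh a b s / s ^ 2) (Set.Icc t 1) := by
      refine antitoneOn_of_deriv_nonpos (convex_Icc t 1) ?_ ?_ ?_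
      · intro s hs'
        have hs0 : s ^ 2 ≠ 0 := by
          have : 0 < s := h0.trans_le hs'.1
          positivity
        exact ((mono_h0 a b s).div (hasDerivAt_pow 2 s) hs0).continuousAt.continuousWithinAt
      · intro s hs'
        rw [interior_Icc] at hs'
        have hs0 : s ^ 2 ≠ 0 := by
          have : 0 < s := h0.trans hs'.1
          positivity
        exact ((mono_h0 a b s).div (hasDerivAt_pow 2 s) hs0).differentiableAt.differentiableWithinAt
      · intro s hs'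
        rw [interior_Icc] at hs'
        have hsp : 0 < s := h0.trans hs'.1
        have hs0 : s ^ 2 ≠ 0 := by positivity
        have hd := (mono_h0 a b s).div (hasDerivAt_pow 2 s) hs0
        have hd' := hd.deriv
        have e : deriv (fun s => hh a b s / s ^ 2) s =
            (monoh1 a b s * s ^ 2 - hh a b s * ((2 : ℕ) * s ^ (2 - 1))) / (s ^ 2) ^ 2 := hd'
        rw [e]
        apply div_nonpos_of_nonpos_of_nonneg _ (by positivity)
        have := k0n s ⟨hsp.le, hs'.2.le⟩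
        have e3 : monoh1 a b s * s ^ 2 - hh a b s * ((2 : ℕ) * s ^ (2 - 1)) =
            -(s * (2 * hh a b s - s * monoh1 a b s)) := by
          push_cast; ring
        rw [e3]
        have := mul_nonneg hsp.le this
        linarith
    have := g (Set.left_mem_Icc.mpr ht.2) (Set.right_mem_Icc.mpr ht.2) ht.2
    simp only [] at this
    rw [one_pow, div_one, le_div_iff₀ (by positivity)] at this
    linarith

end Pool.Agent.Lib.MP_d38209_co.LB
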