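import Mathlib

/-!
# Values of sine and cosine at `1.1326` and `1.1327`

Taylor polynomials with remainder: for example `Complex.exp_bound'` for `x = 1.1326 * I` with
`n = 16` (`‖x‖ / 17 ≤ 1/2`, error `‖x‖^16 / 16! * 2 < 10^(-12)`), real and imaginary parts, or
alternating Taylor bounds of `Real.cos`, `Real.sin` by repeated monotonicity, or
`Real.cos_bound`/`Real.sin_bound` at `x / 8` is NOT precise enough.
Values: `sin 1.1326 = 0.9055184467…`, see the statements.
-/

namespace Pool.Agent.Lib.MP_d38209_co.LB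

private theorem num_sum (a : ℝ) :
    (∑ m ∈ Finset.range 16, ((a : ℂ) * Complex.I) ^ m / (m.factorial : ℂ))
      = (((1 - a ^ 2 / 2 + a ^ 4 / 24 - a ^ 6 / 720 + a ^ 8 / 40320 - a ^ 10 / 3628800
          + a ^ 12 / 479001600 - a ^ 14 / 87178291200 : ℝ) : ℂ)
        + ((a - a ^ 3 / 6 + a ^ 5 / 120 - a ^ 7 / 5040 + a ^ 9 / 362880 - a ^ 11 / 39916800
          + a ^ 13 / 6227020800 - a ^ 15 / 1307674368000 : ℝ) : ℂ) * Complex.I) := by
  have h2 : Complex.I ^ 2 = -1 := Complex.I_sq
  have h3 : Complex.I ^ 3 = -Complex.I := by rw [pow_succ, h2]; ring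
  have h4 : Complex.I ^ 4 = 1 := by rw [pow_succ, h3]; simp
  have h5 : Complex.I ^ 5 = Complex.I := by rw [pow_succ, h4]; ring
  have h6 : Complex.I ^ 6 = -1 := by rw [pow_succ, h5]; simp
  have h7 : Complex.I ^ 7 = -Complex.I := by rw [pow_succ, h6]; ring
  have h8 : Complex.I ^ 8 = 1 := by rw [pow_succ, h7]; simp
  have h9 : Complex.I ^ 9 = Complex.I := by rw [pow_succ, h8]; ring
  have h10 : Complex.I ^ 10 = -1 := by rw [pow_succ, h9]; simp
  have h11 : Complex.I ^ 11 = -Complex.I := by rw [pow_succ, h10]; ring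
  have h12 : Complex.I ^ 12 = 1 := by rw [pow_succ, h11]; simp
  have h13 : Complex.I ^ 13 = Complex.I := by rw [pow_succ, h12]; ring
  have h14 : Complex.I ^ 14 = -1 := by rw [pow_succ, h13]; simp
  have h15 : Complex.I ^ 15 = -Complex.I := by rw [pow_succ, h14]; ring
  simp only [Finset.sum_range_succ, Finset.sum_range_zero, mul_pow, h2, h3, h4, h5, h6, h7, h8,
    h9, h10, h11, h12, h13, h14, h15, pow_zero, pow_one, Nat.factorial]
  push_cast
  ring

private theorem num_main (a : ℝ) (ha : |a| / 17 ≤ 1 / 2) :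
    |Real.cos a - (1 - a ^ 2 / 2 + a ^ 4 / 24 - a ^ 6 / 720 + a ^ 8 / 40320 - a ^ 10 / 3628800
          + a ^ 12 / 479001600 - a ^ 14 / 87178291200)| ≤ |a| ^ 16 / 20922789888000 * 2
    ∧ |Real.sin a - (a - a ^ 3 / 6 + a ^ 5 / 120 - a ^ 7 / 5040 + a ^ 9 / 362880
          - a ^ 11 / 39916800 + a ^ 13 / 6227020800 - a ^ 15 / 1307674368000)|
        ≤ |a| ^ 16 / 20922789888000 * 2 := by
  have hx : ‖(a : ℂ) * Complex.I‖ = |a| := by simp
  have hb := Complex.exp_bound' (x := (a : ℂ) * Complex.I) (n := 16) (by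
    rw [hx]
    norm_num
    norm_num at ha
    exact ha)
  rw [hx, num_sum, Complex.exp_mul_I, ← Complex.ofReal_cos, ← Complex.ofReal_sin] at hb
  have hf : ((Nat.factorial 16 : ℕ) : ℝ) = 20922789888000 := by norm_num [Nat.factorial]
  rw [hf] at hb
  constructor
  · refine le_trans ?_ ((Complex.abs_re_le_norm _).trans hb)
    apply le_of_eq
    congr 1
    simp only [Complex.sub_re, Complex.add_re, Complex.ofReal_re, Complex.re_ofReal_mul,
      Complex.I_re, mul_zero, add_zero]
  · refine le_trans ?_ ((Complex.abs_im_le_norm _).trans hb)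
    apply le_of_eq
    congr 1
    simp only [Complex.sub_im, Complex.add_im, Complex.ofReal_im, Complex.im_ofReal_mul,
      Complex.I_im, mul_one, zero_add]

theorem sin1 : |Real.sin 1.1326 - 0.90551845| ≤ 1 / 10 ^ 8 := by
  have h := (num_main 1.1326 (by rw [abs_of_pos (by norm_num)]; norm_num)).2
  rw [abs_of_pos (show (0 : ℝ) < 1.1326 by norm_num), abs_le] at h
  rw [abs_le]
  norm_num at h ⊢
  constructor <;> linarith [h.1, h.2]

theorem cos1 : |Real.cos 1.1326 - 0.42430690| ≤ 1 / 10 ^ 8 := by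
  have h := (num_main 1.1326 (by rw [abs_of_pos (by norm_num)]; norm_num)).1
  rw [abs_of_pos (show (0 : ℝ) < 1.1326 by norm_num), abs_le] at h
  rw [abs_le]
  norm_num at h ⊢
  constructor <;> linarith [h.1, h.2]

theorem sin2 : |Real.sin 1.1327 - 0.90556087| ≤ 1 / 10 ^ 8 := by
  have h := (num_main 1.1327 (by rw [abs_of_pos (by norm_num)]; norm_num)).2
  rw [abs_of_pos (show (0 : ℝ) < 1.1327 by norm_num), abs_le] at h
  rw [abs_le]
  norm_num at h ⊢
  constructor <;> linarith [h.1, h.2]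

theorem cos2 : |Real.cos 1.1327 - 0.42421634| ≤ 1 / 10 ^ 8 := by
  have h := (num_main 1.1327 (by rw [abs_of_pos (by norm_num)]; norm_num)).1
  rw [abs_of_pos (show (0 : ℝ) < 1.1327 by norm_num), abs_le] at h
  rw [abs_le]
  norm_num at h ⊢
  constructor <;> linarith [h.1, h.2]

end Pool.Agent.Lib.MP_d38209_co.LB
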