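import Pool.Agent.Lib.MP_d38209_co.LB.Num

/-!
# Signs of `G(b) = 2 exp(b cos b / sin b - 1) sin b - b` at `1.1326` and `1.1327`

True values: `G(1.1326) = 0.00010897…`, `G(1.1327) = -0.0000413…`.  With the enclosures of `Num`:
`1.1326 cos / sin - 1 ≥ -0.469288`, `exp(-0.469288) ≥ 0.62544` (true value `0.625447…`), and
`1.1327 cos / sin - 1 ≤ -0.469378`, `exp(-0.469378) ≤ 0.6254` (true value `0.6253911`; needed:
`2 exp(·) sin 1.1327 < 1.1327`, i.e. `exp(·) < 0.62541350`).  Exponentials by `Real.exp_bound'`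
(arguments in `[0,1]`, use `exp(-y) = 1 / exp y`) or `Real.exp_bound`.
-/

namespace Pool.Agent.Lib.MP_d38209_co.LB

theorem sign1 :
    1.1326 < 2 * Real.exp (1.1326 * Real.cos 1.1326 / Real.sin 1.1326 - 1) * Real.sin 1.1326 := by
  have hs := abs_le.mp sin1
  have hc := abs_le.mp cos1
  have hs0 : 0 < Real.sin 1.1326 := by linarith [hs.1]
  have hy : (-0.469288 : ℝ) ≤ 1.1326 * Real.cos 1.1326 / Real.sin 1.1326 - 1 := by
    rw [le_sub_iff_add_le, le_div_iff₀ hs0]
    linarith [hs.2, hc.1]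
  have h1 : Real.exp 0.469288 ≤ 1.598874 := by
    have h := Real.exp_bound' (x := 0.469288) (by norm_num) (by norm_num) (n := 9) (by norm_num)
    refine h.trans ?_
    norm_num [Finset.sum_range_succ, Nat.factorial]
  have he : (0.62544 : ℝ) ≤ Real.exp (-0.469288) := by
    rw [Real.exp_neg, le_inv_comm₀ (by norm_num) (Real.exp_pos _)]
    refine h1.trans ?_
    norm_num
  have h2 := he.trans (Real.exp_le_exp.mpr hy)
  have h3 : (0.62544 : ℝ) * 0.90551844 ≤
      Real.exp (1.1326 * Real.cos 1.1326 / Real.sin 1.1326 - 1) * Real.sin 1.1326 :=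
    mul_le_mul h2 (by linarith [hs.1]) (by norm_num) (Real.exp_pos _).le
  linarith

theorem sign2 :
    2 * Real.exp (1.1327 * Real.cos 1.1327 / Real.sin 1.1327 - 1) * Real.sin 1.1327 < 1.1327 := by
  have hs := abs_le.mp sin2
  have hc := abs_le.mp cos2
  have hs0 : 0 < Real.sin 1.1327 := by linarith [hs.1]
  have hy : 1.1327 * Real.cos 1.1327 / Real.sin 1.1327 - 1 ≤ (-0.469378 : ℝ) := by
    rw [sub_le_iff_le_add, div_le_iff₀ hs0]
    linarith [hs.1, hc.2]
  have h1 : (1.598977 : ℝ) ≤ Real.exp 0.469378 := by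
    have h := Real.sum_le_exp_of_nonneg (x := 0.469378) (by norm_num) 9
    refine le_trans ?_ h
    norm_num [Finset.sum_range_succ, Nat.factorial]
  have he : Real.exp (-0.469378) ≤ 0.6254 := by
    rw [Real.exp_neg, inv_le_comm₀ (Real.exp_pos _) (by norm_num)]
    refine le_trans ?_ h1
    norm_num
  have h2 := (Real.exp_le_exp.mpr hy).trans he
  have h3 : Real.exp (1.1327 * Real.cos 1.1327 / Real.sin 1.1327 - 1) * Real.sin 1.1327 ≤
      0.6254 * 0.90556088 :=
    mul_le_mul h2 (by linarith [hs.2]) hs0.le (by norm_num)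
  linarith

end Pool.Agent.Lib.MP_d38209_co.LB
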