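import Pool.Agent.Lib.MP_d38209_co.LB.Gen
import Pool.Agent.Lib.MP_d38209_co.LB.Count

/-!
# The tail sums of the generating function

`W q (l x) x (i, j) = l^i W q x x (i, j)`.  If `l ≥ 1` and `i > a` then `l^i ≥ l^a`, so the sum of
`W q x x (i, j)` over `i > a` is at most `l^{-a} ∑ W q (l x) x = l^{-a} (exp (l x) + exp x - 1)^q`.
Likewise for `0 < l < 1` and `i < a`.  (Comparison of sums of nonnegative terms, `Summable.of_nonneg_of_le`,
`Summable.tsum_le_tsum`, `gen`.)  The powers `l ^ (-a)` are real powers.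
`W_symm` from `N_symm`.
-/

namespace Pool.Agent.Lib.MP_d38209_co.LB

open Finset

theorem W_symm (q : ℕ) (x : ℝ) (i j : ℕ) : W q x x (i, j) = W q x x (j, i) := by
  unfold W
  simp only
  rw [N_symm i j q]
  ring

theorem W_nonneg (q : ℕ) (x y : ℝ) (hx : 0 ≤ x) (hy : 0 ≤ y) (p : ℕ × ℕ) : 0 ≤ W q x y p := by
  unfold W
  positivity

private lemma tail_scale (q : ℕ) (x l : ℝ) (p : ℕ × ℕ) :
    W q (l * x) x p = l ^ p.1 * W q x x p := by
  unfold W
  rw [mul_pow]
  ring

private lemma tail_aux (q : ℕ) (x l a : ℝ) (hx : 0 < x) (hl0 : 0 < l) (P : ℕ × ℕ → Prop)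
    [DecidablePred P] (hP : ∀ p, P p → l ^ a ≤ l ^ (p.1 : ℝ)) :
    ∑' p : ℕ × ℕ, (if P p then W q x x p else 0) ≤
      l ^ (-a) * (Real.exp (l * x) + Real.exp x - 1) ^ q := by
  have hg := (gen q (l * x) x (by positivity) hx.le).mul_left (l ^ (-a))
  have hle : ∀ p : ℕ × ℕ, (if P p then W q x x p else 0) ≤ l ^ (-a) * W q (l * x) x p := by
    intro p
    have hW := W_nonneg q x x hx.le hx.le p
    split_ifs with h
    · have h1 := hP p h
      rw [tail_scale, ← mul_assoc]
      have h2 : 1 ≤ l ^ (-a) * l ^ p.1 := by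
        rw [Real.rpow_natCast] at h1
        rw [Real.rpow_neg hl0.le]
        have h3 : 0 < l ^ a := Real.rpow_pos_of_pos hl0 a
        rw [inv_mul_eq_div, le_div_iff₀ h3, one_mul]
        exact h1
      calc W q x x p = 1 * W q x x p := (one_mul _).symm
        _ ≤ l ^ (-a) * l ^ p.1 * W q x x p := mul_le_mul_of_nonneg_right h2 hW
    · have := W_nonneg q (l * x) x (by positivity) hx.le p
      positivity
  have hnn : ∀ p : ℕ × ℕ, 0 ≤ (if P p then W q x x p else 0) := by
    intro p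
    split_ifs
    · exact W_nonneg q x x hx.le hx.le p
    · exact le_refl _
  have hs : Summable (fun p : ℕ × ℕ => if P p then W q x x p else 0) :=
    Summable.of_nonneg_of_le hnn hle hg.summable
  exact hasSum_le hle hs.hasSum hg

theorem tail_hi (q : ℕ) (x l a : ℝ) (hx : 0 < x) (hl : 1 < l) :
    ∑' p : ℕ × ℕ, (if a < (p.1 : ℝ) then W q x x p else 0) ≤
      l ^ (-a) * (Real.exp (l * x) + Real.exp x - 1) ^ q := by
  classical
  exact tail_aux q x l a hx (by linarith) _ fun p hp =>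
    Real.rpow_le_rpow_of_exponent_le hl.le hp.le

theorem tail_lo (q : ℕ) (x l a : ℝ) (hx : 0 < x) (hl0 : 0 < l) (hl : l < 1) :
    ∑' p : ℕ × ℕ, (if (p.1 : ℝ) < a then W q x x p else 0) ≤
      l ^ (-a) * (Real.exp (l * x) + Real.exp x - 1) ^ q := by
  classical
  exact tail_aux q x l a hx hl0 _ fun p hp =>
    Real.rpow_le_rpow_of_exponent_ge hl0 hl.le hp.le

end Pool.Agent.Lib.MP_d38209_co.LB
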